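import Pool.Agent.Lib.MP_33b3f9_ag.MF.An.Pz
import Pool.Agent.Lib.MP_33b3f9_ag.M4.KzDefs

/-!
Nearly parallel vectors, and the correlation of the torsion values of the level four coordinates.
-/

set_option autoImplicit false

namespace MF.An

open Complex Matrix M4 ComplexConjugate

theorem near_corr {H : Type} [NormedAddCommGroup H] [InnerProductSpace ℂ H] {f g f' g' : H}
    (hf : ‖f'‖ = ‖f‖) (hg : ‖g'‖ = ‖g‖) (hi : inner ℂ g' f' = inner ℂ g f) (f0 : 0 < ‖f‖)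
    (g0 : 0 < ‖g‖) (h1 : (1 - 1 / 64) * ‖f‖ ^ 2 * ‖g‖ ^ 2 ≤ ‖inner ℂ g f‖ ^ 2)
    (h2 : 3 / 4 * ‖f‖ ^ 2 ≤ (inner ℂ f f').re) : ‖g‖ ^ 2 / 2 ≤ (inner ℂ g g').re := by
  obtain ⟨l, hl⟩ : ∃ l : ℂ, l = inner ℂ g f / ((‖g‖ ^ 2 : ℝ) : ℂ) := ⟨_, rfl⟩
  have g2 : 0 < ‖g‖ ^ 2 := by positivity
  have hl1 : inner ℂ g f = l * ((‖g‖ ^ 2 : ℝ) : ℂ) := by
    rw [hl, div_mul_cancel₀ _ (ofReal_ne_zero.2 g2.ne')]
  have hn : ‖inner ℂ g f‖ = ‖l‖ * ‖g‖ ^ 2 := by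
    rw [hl1, norm_mul, norm_real, Real.norm_of_nonneg g2.le]
  have key : ∀ a b : H, ‖a‖ = ‖f‖ → ‖b‖ = ‖g‖ → inner ℂ b a = inner ℂ g f →
      ‖a - l • b‖ ≤ ‖f‖ / 8 := fun a b ha hb hab => by
    refine le_of_pow_le_pow_left₀ (n := 2) (by norm_num) (by positivity) ?_
    have e : RCLike.re (inner ℂ (l • b) a) = ‖l‖ ^ 2 * ‖g‖ ^ 2 := by
      rw [inner_smul_left, hab, hl1, ← mul_assoc, Complex.conj_mul', ← ofReal_pow, ← ofReal_mul]
      exact ofReal_re _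
    rw [norm_sub_rev, norm_sub_sq (𝕜 := ℂ), e, norm_smul, ha, hb, mul_pow]
    rw [hn, mul_pow] at h1
    have : (1 - 1 / 64) * ‖f‖ ^ 2 ≤ ‖l‖ ^ 2 * ‖g‖ ^ 2 := by
      refine le_of_mul_le_mul_right ?_ g2
      linarith
    linarith
  have k1 := key f g rfl rfl rfl
  have k2 := key f' g' hf hg hi
  have k3 : ‖l‖ * ‖g‖ ≤ ‖f‖ := by
    have := norm_inner_le_norm (𝕜 := ℂ) g f
    rw [hn] at this
    refine le_of_mul_le_mul_right ?_ g0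
    linarith
  have e : inner ℂ f f' = ((‖l‖ ^ 2 : ℝ) : ℂ) * inner ℂ g g' + inner ℂ (l • g) (f' - l • g') +
      inner ℂ (f - l • g) f' := by
    rw [inner_sub_right, inner_sub_left, inner_smul_left g (l • g'), inner_smul_right g g',
      ← mul_assoc, Complex.conj_mul']
    push_cast
    ring
  have k4 : (inner ℂ (l • g) (f' - l • g')).re ≤ ‖f‖ * (‖f‖ / 8) := by
    refine (re_le_norm _).trans ((norm_inner_le_norm _ _).trans ?_)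
    rw [norm_smul]
    gcongr
  have k5 : (inner ℂ (f - l • g) f').re ≤ ‖f‖ / 8 * ‖f‖ := by
    refine (re_le_norm _).trans ((norm_inner_le_norm _ _).trans ?_)
    rw [hf]
    gcongr
  rw [e, add_re, add_re, re_ofReal_mul] at h2
  have k6 : ‖f‖ ^ 2 / 2 ≤ ‖l‖ ^ 2 * (inner ℂ g g').re := by nlinarith
  have k7 : (‖l‖ * ‖g‖) ^ 2 ≤ ‖f‖ ^ 2 := pow_le_pow_left₀ (by positivity) k3 2
  have k8 : 0 < ‖l‖ ^ 2 := by
    rcases (sq_nonneg ‖l‖).eq_or_lt with h | h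
    · rw [← h, zero_mul] at k6
      have := pow_pos f0 2
      linarith
    · exact h
  refine le_of_mul_le_mul_left ?_ k8
  nlinarith

theorem psi_int (n : ℕ) [NeZero n] (j : ℤ) : ZMod.stdAddChar (j : ZMod n) = ee (j / n) := by
  rw [ZMod.stdAddChar_coe, ee, mul_div_assoc]

theorem sum_dot {κ : Type} [Fintype κ] [DecidableEq κ] {n : ℕ} [NeZero n] (w : κ → ZMod n) :
    ∑ a : κ → ZMod n, ZMod.stdAddChar (a ⬝ᵥ w) =
      if w = 0 then (n : ℂ) ^ Fintype.card κ else 0 := by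
  have e : ∀ a : κ → ZMod n, ZMod.stdAddChar (a ⬝ᵥ w) = ∏ i, ZMod.stdAddChar (a i * w i) :=
    fun a => by
      rw [dotProduct]
      refine Finset.induction_on Finset.univ (by simp) fun i s hi ih => ?_
      rw [Finset.sum_insert hi, Finset.prod_insert hi, AddChar.map_add_eq_mul, ih]
  simp only [e]
  rw [← Fintype.piFinset_univ,
    ← Finset.prod_univ_sum (fun _ => Finset.univ) fun i t => ZMod.stdAddChar (t * w i)]
  simp only [AddChar.sum_mulShift _ (ZMod.isPrimitive_stdAddChar n), ZMod.card]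
  split_ifs with h
  · simp [h]
  · obtain ⟨i, hi⟩ := Function.ne_iff.1 h
    exact Finset.prod_eq_zero (Finset.mem_univ i)
      (by rw [if_neg (show w i ≠ 0 from hi), Nat.cast_zero])

variable {ι : Type} [Fintype ι] [DecidableEq ι] {τ : Matrix ι ι ℂ}

theorem sum_Ef (n : ℕ) [NeZero n] (m : ι ⊕ ι → ℤ) :
    ∑ a : ι ⊕ ι → ZMod n, ee ((Kz.Ef m (Kz.lift a) : ℤ) / n) =
      if ∀ i, (n : ℤ) ∣ m i then (n : ℂ) ^ Fintype.card (ι ⊕ ι) else 0 := by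
  have e : ∀ a : ι ⊕ ι → ZMod n, ee ((Kz.Ef m (Kz.lift a) : ℤ) / n) =
      ZMod.stdAddChar (a ⬝ᵥ J ι (ZMod n) *ᵥ Kz.vZ n m) := fun a => by
    rw [← psi_int, ← Kz.Ef_vZ, Kz.vZ_lift, Kz.Ef_swap, Kz.Ef_eq_J, neg_neg]
  simp only [e]
  rw [sum_dot]
  refine if_congr ⟨fun h i => ?_, fun h => ?_⟩ rfl rfl
  · have := congrArg (J ι (ZMod n) *ᵥ ·) h
    simp only [mulVec_mulVec, J_squared, neg_mulVec, one_mulVec, mulVec_zero, neg_eq_zero] at this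
    exact (ZMod.intCast_zmod_eq_zero_iff_dvd _ _).1 (congrFun this i)
  · rw [show Kz.vZ n m = 0 from funext fun i => (ZMod.intCast_zmod_eq_zero_iff_dvd _ _).2 (h i),
      mulVec_zero]

/-- The values of the level four coordinates at the points `a / N`. -/
noncomputable def Xq (τ : Matrix ι ι ℂ) (N : ℕ) (k : ι ⊕ ι → Fin 2) (a : ι ⊕ ι → ZMod (N ^ 2)) :
    ℂ := XX τ (bz k) (Kz.rq N (Kz.lift a))

/-- The Gaussian sum over a class modulo `N ^ 2`. -/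
noncomputable def Tht (τ : Matrix ι ι ℂ) (N : ℕ) (b : ι ⊕ ι → ℤ) : ℝ :=
  ∑' m : ι ⊕ ι → ℤ, Real.exp (-(2 * Real.pi) * qf τ (Kz.rq N b + (N : ℝ) • rz m))

omit [DecidableEq ι] in
theorem E_rq {N : ℕ} (a b : ι ⊕ ι → ℤ) : E (rz a) (Kz.rq N b) = (Kz.Ef a b : ℤ) / N := by
  rw [Kz.rq, E_smul_right, Kz.E_eq, Kz.Ef_rz, inv_mul_eq_div]

omit [DecidableEq ι] in
theorem Xq_vZ (hτ : InH τ) {N : ℕ} [NeZero N] (k : ι ⊕ ι → Fin 2) (a : ι ⊕ ι → ℤ) :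
    Xq τ N k (Kz.vZ (N ^ 2) a) = XX τ (bz k) (Kz.rq N a) := by
  have hN := NeZero.ne N
  obtain ⟨n, hn⟩ := (Kz.vZ_eq_iff (N ^ 2) _ a).1 (Kz.vZ_lift (Kz.vZ (N ^ 2) a))
  have h := congrFun ((XX_mem hτ (bz k)).2 ((N : ℤ) • n)) (Kz.rq N a)
  have e : ((4 : ℕ) : ℝ) * (E (rz ((N : ℤ) • n)) (Kz.rq N a) : ℂ) / 2 =
      ((2 * Kz.Ef n a : ℤ) : ℂ) := by
    rw [E_rq, Kz.Ef_smul_left]
    push_cast
    field_simp
    ring
  rw [U_apply, e, ee_int, one_mul, show 4 = 2 * 2 from rfl, pow_mul, chi_sq] at h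
  rw [Xq, hn, Kz.rq_add, Nat.cast_pow, sq, mul_smul, Kz.rq_smul hN, h]
  simp

omit [DecidableEq ι] in
theorem XX_mul (τ : Matrix ι ι ℂ) (k : ι ⊕ ι → ℤ) (x y : ι ⊕ ι → ℝ) :
    ee (-2 * E y x) * XX τ k (x + y) * conj (XX τ k x) =
      ee (-(E ((2 : ℝ) • y) ((2 : ℝ) • x + hf k)) / 2) *
        Th τ ((2 : ℝ) • x + hf k + (2 : ℝ) • y) * conj (Th τ ((2 : ℝ) • x + hf k)) := by
  have e1 : ∀ t : ℝ, ((1 : ℝ) : ℂ) * t / 2 = ((t / 2 : ℝ) : ℂ) := fun t => by simp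
  have e2 : ∀ a b c s t : ℂ, ee a * (ee b * s) * (ee c * t) = ee (a + b + c) * s * t :=
    fun a b c s t => by rw [ee_add, ee_add]; ring
  rw [XX, XX, U_apply, U_apply, map_mul, e1, e1, conj_ee, smul_add, add_right_comm, e2]
  congr 3
  simp only [E_add_right, E_smul_left, E_smul_right, E_swap (hf k) y]
  push_cast
  ring

theorem corr (hτ : InH τ) {N : ℕ} [NeZero N] (hN : Odd N) : ∃ κ : ℝ, 0 < κ ∧ ∀ b : ι ⊕ ι → ℤ,
    ∑ p : (ι ⊕ ι → Fin 2) × (ι ⊕ ι → ZMod (N ^ 2)),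
      ZMod.stdAddChar (-2 * Kz.Ef (Kz.vZ (N ^ 2) b) p.2) *
        Xq τ N p.1 (p.2 + Kz.vZ (N ^ 2) b) * conj (Xq τ N p.1 p.2) = (κ * Tht τ N b : ℝ) := by
  obtain ⟨κ, hκ, h⟩ := pz hτ
  have N0 := NeZero.ne N
  have N1 : (N : ℂ) ≠ 0 := Nat.cast_ne_zero.2 N0
  have N2 : (N : ℝ) ≠ 0 := Nat.cast_ne_zero.2 N0
  refine ⟨κ * (2 ^ Fintype.card (ι ⊕ ι) * ((N ^ 2 : ℕ) : ℝ) ^ Fintype.card (ι ⊕ ι)),
    by positivity, fun b => ?_⟩
  have h1 := hasSum_sum (s := Finset.univ)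
    fun (p : (ι ⊕ ι → Fin 2) × (ι ⊕ ι → ZMod (N ^ 2))) _ =>
      h ((2 : ℝ) • Kz.rq N b) ((2 : ℝ) • Kz.rq N (Kz.lift p.2) + hf (bz p.1))
  have h2 : ∀ m : ι ⊕ ι → ℤ, ∑ p : (ι ⊕ ι → Fin 2) × (ι ⊕ ι → ZMod (N ^ 2)),
      ee (E (rz m) ((2 : ℝ) • Kz.rq N (Kz.lift p.2) + hf (bz p.1))) =
      (if ∀ i, ((2 : ℕ) : ℤ) ∣ m i then ((2 : ℕ) : ℂ) ^ Fintype.card (ι ⊕ ι) else 0) *
        if ∀ i, ((N ^ 2 : ℕ) : ℤ) ∣ ((2 * N : ℤ) • m) i then
          ((N ^ 2 : ℕ) : ℂ) ^ Fintype.card (ι ⊕ ι) else 0 := fun m => by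
    rw [← sum_Ef, ← sum_Ef, Finset.sum_mul_sum, ← Fintype.sum_prod_type']
    refine Finset.sum_congr rfl fun p _ => ?_
    rw [← ee_add, E_add_right, E_smul_right, E_rq, hf, E_smul_right, Kz.E_eq, Kz.Ef_rz,
      Kz.Ef_smul_left]
    congr 1
    change _ = ((Kz.Ef m (bz p.1) : ℤ) : ℂ) / _ + _
    push_cast
    field_simp
    ring
  simp only [← Finset.mul_sum, h2] at h1
  have hi : Function.Injective fun m : ι ⊕ ι → ℤ => (2 * N : ℤ) • m :=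
    smul_right_injective _ (by positivity)
  rw [← hi.hasSum_iff (fun m hm => ?_)] at h1
  · refine Eq.trans (Finset.sum_congr rfl fun p _ => ?_) (h1.tsum_eq.symm.trans ?_)
    · have e1 : p.2 + Kz.vZ (N ^ 2) b = Kz.vZ (N ^ 2) (Kz.lift p.2 + b) := by
        rw [Kz.vZ_add, Kz.vZ_lift]
      have e2 : -2 * Kz.Ef (Kz.vZ (N ^ 2) b) p.2 =
          ((-2 * Kz.Ef b (Kz.lift p.2) : ℤ) : ZMod (N ^ 2)) := by
        rw [Int.cast_mul, ← Kz.Ef_vZ, Kz.vZ_lift]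
        simp
      rw [e1, Xq_vZ hτ, e2, psi_int, Xq, Kz.rq_add, ← XX_mul, Kz.rq.eq_1 N b, E_smul_left, E_rq]
      congr 3
      push_cast
      field_simp
    · rw [Tht, ← tsum_mul_left, ofReal_tsum]
      refine tsum_congr fun m => ?_
      have e1 : chi ((2 * N : ℤ) • m) = 1 := by
        have := chi_add_two 0 ((N : ℤ) • m)
        rwa [zero_add, ← mul_smul, show chi (0 : ι ⊕ ι → ℤ) = 1 by simp [chi]] at this
      have e2 : (E (rz ((2 * N : ℤ) • m)) ((2 : ℝ) • Kz.rq N b) : ℂ) / 2 =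
          ((2 * Kz.Ef m b : ℤ) : ℂ) := by
        rw [E_smul_right, E_rq, Kz.Ef_smul_left]
        push_cast
        field_simp
      have e3 : (2 : ℝ) • Kz.rq N b + rz ((2 * N : ℤ) • m) =
          (2 : ℝ) • (Kz.rq N b + (N : ℝ) • rz m) := by
        rw [Kz.rz_zsmul, smul_add, smul_smul]
        simp
      rw [Function.comp_apply, e1, e2, ee_int, e3, qf_smul,
        if_pos fun i => ⟨N * m i, by simp; ring⟩,
        if_pos fun i => ⟨4 * m i, by simp; ring⟩,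
        show ∀ t : ℝ, -(Real.pi / 2) * (2 ^ 2 * t) = -(2 * Real.pi) * t from fun t => by ring]
      push_cast
      ring
  · split_ifs with a1 a2
    · refine absurd ?_ hm
      have a3 : ∀ i, (2 * N : ℤ) ∣ m i := fun i => by
        have c : IsCoprime (2 : ℤ) N := by exact_mod_cast hN.coprime_two_left.isCoprime
        refine c.mul_dvd (a1 i) (c.symm.dvd_of_dvd_mul_left ?_)
        have := a2 i
        rw [Pi.smul_apply, smul_eq_mul, Nat.cast_pow, sq, mul_comm 2, mul_assoc] at this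
        exact (mul_dvd_mul_iff_left (Nat.cast_ne_zero.2 N0)).1 this
      choose k hk using a3
      exact ⟨k, funext fun i => (hk i).symm⟩
    all_goals simp

end MF.An
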