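import Pool.Agent.Lib.MP_33b3f9_ag.M4.FP.Pm
import Pool.Agent.Lib.MP_33b3f9_ag.M4.Red
import Pool.Agent.Lib.MP_33b3f9_ag.M4.ThExt

/-!
The positive form of a point of the Siegel space and the vector of theta constants.
-/

set_option autoImplicit false

namespace MF.An

open Complex Matrix M4 Filter Topology

variable {ι : Type} [Fintype ι] [DecidableEq ι] {τ : Matrix ι ι ℂ}

/-- The positive quadratic form of `τ`. -/
noncomputable def qf (τ : Matrix ι ι ℂ) (x : ι ⊕ ι → ℝ) : ℝ := x ⬝ᵥ FP.Pm τ *ᵥ x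

/-- The theta constants with half integral characteristics. -/
noncomputable def t2 (τ : Matrix ι ι ℂ) : (ι ⊕ ι → Fin 2) → ℂ := fun ε => Th τ (hf (bz ε))

theorem qf_eq (τ : Matrix ι ι ℂ) (x : ι ⊕ ι → ℝ) : qf τ x = E (cst τ *ᵥ x) x := by
  rw [E_swap, act_E_J, neg_neg, qf, FP.Pm, mulVec_mulVec]

theorem qf_act {g : Matrix (ι ⊕ ι) (ι ⊕ ι) ℝ} {μ : ℝ} (hg : Sim g μ) (hμ : 0 < μ) (hτ : InH τ)
    (x : ι ⊕ ι → ℝ) : qf (act g τ) (g *ᵥ x) = μ * qf τ x := by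
  rw [qf_eq, qf_eq, mulVec_mulVec, M4.cst_act hg hμ hτ, ← mulVec_mulVec, hg]

theorem qf_smul (τ : Matrix ι ι ℂ) (c : ℝ) (x : ι ⊕ ι → ℝ) : qf τ (c • x) = c ^ 2 * qf τ x := by
  rw [qf, qf, mulVec_smul, dotProduct_smul, smul_dotProduct, smul_eq_mul, smul_eq_mul]
  ring

theorem qf_neg (τ : Matrix ι ι ℂ) (x : ι ⊕ ι → ℝ) : qf τ (-x) = qf τ x := by
  rw [qf, qf, mulVec_neg, dotProduct_neg, neg_dotProduct, neg_neg]

theorem qf_zero (τ : Matrix ι ι ℂ) : qf τ 0 = 0 := by simp [qf]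

theorem Pm_posDef (hτ : InH τ) : (FP.Pm τ).PosDef := by
  obtain ⟨g, hg, e⟩ := FP.Pm_fac hτ
  have hu : IsUnit g := by
    have h := SymplecticGroup.symplectic_det hg
    exact (Matrix.isUnit_iff_isUnit_det g).2 h
  have h := Matrix.PosDef.conjTranspose_mul_self g (Matrix.mulVec_injective_of_isUnit hu)
  rwa [conjTranspose_eq_transpose_of_trivial, ← e] at h

theorem qf_low (hτ : InH τ) : ∃ d : ℝ, 0 < d ∧ ∀ x, d * ∑ i, x i ^ 2 ≤ qf τ x := by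
  obtain ⟨c, hc, h⟩ := Pool.Agent.Lib.MP_07b2d0_nt.Sch.coercive (Pm_posDef hτ)
  exact ⟨c, hc, fun x => (h x).trans_eq (ths_form _ x).symm⟩

theorem qf_nonneg (hτ : InH τ) (x : ι ⊕ ι → ℝ) : 0 ≤ qf τ x := by
  have h := (Pm_posDef hτ).posSemidef.dotProduct_mulVec_nonneg x
  rwa [star_trivial] at h

theorem qf_pos (hτ : InH τ) {x : ι ⊕ ι → ℝ} (hx : x ≠ 0) : 0 < qf τ x := by
  have h := (Pm_posDef hτ).dotProduct_mulVec_pos hx
  rwa [star_trivial] at h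

theorem im_le_qf (hτ : InH τ) (x : ι ⊕ ι → ℝ) :
    (x ∘ Sum.inl) ⬝ᵥ τ.map im *ᵥ (x ∘ Sum.inl) ≤ qf τ x := by
  rw [qf_eq, red2_form hτ.1]
  have h := hτ.2.inv.posSemidef.dotProduct_mulVec_nonneg
    (τ.map re *ᵥ (x ∘ Sum.inl) + x ∘ Sum.inr)
  rw [star_trivial] at h
  linarith

theorem qf_im (hτ : τ.IsSymm) (a : ι → ℝ) :
    qf τ (Sum.elim a (-(τ.map re *ᵥ a))) = a ⬝ᵥ τ.map im *ᵥ a := by
  rw [qf_eq, red2_form hτ, Sum.elim_comp_inl, Sum.elim_comp_inr, add_neg_cancel, zero_dotProduct,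
    add_zero]

/-- Comparison of the forms gives comparison of the imaginary parts. -/
theorem im_le_of_qf {σ : Matrix ι ι ℂ} (hτ : InH τ) (hσ : InH σ) {K : ℝ}
    (h : ∀ x, qf τ x ≤ K * qf σ x) (a : ι → ℝ) :
    a ⬝ᵥ τ.map im *ᵥ a ≤ K * (a ⬝ᵥ σ.map im *ᵥ a) := by
  have h1 := im_le_qf hτ (Sum.elim a (-(σ.map re *ᵥ a)))
  rw [Sum.elim_comp_inl] at h1
  exact h1.trans ((h _).trans_eq (by rw [qf_im hσ.1]))

/-- The form depends continuously on the point. -/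
theorem qf_near (hτ : InH τ) {δ : ℝ} (hδ : 0 < δ) : ∃ r : ℝ, 0 < r ∧ ∀ σ : Matrix ι ι ℂ,
    (∀ i j, ‖σ i j - τ i j‖ ≤ r) → ∀ x, |qf σ x - qf τ x| ≤ δ * qf τ x := by
  obtain ⟨d, hd, hl⟩ := qf_low hτ
  obtain ⟨n, hn⟩ : ∃ n : ℝ, n = Fintype.card (ι ⊕ ι) := ⟨_, rfl⟩
  have hn0 : 0 ≤ n := hn ▸ Nat.cast_nonneg _
  have hε : 0 < δ * d / (n + 1) := by positivity
  have h1 : ∀ᶠ σ in 𝓝 τ, ∀ a b, |FP.Pm σ a b - FP.Pm τ a b| ≤ δ * d / (n + 1) := by
    refine eventually_all.2 fun a => eventually_all.2 fun b => ?_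
    have hc : ContinuousAt (fun σ : Matrix ι ι ℂ => FP.Pm σ a b) τ :=
      ((continuous_apply_apply a b).continuousAt).comp (FP.continuousAt_Pm hτ)
    exact (Metric.tendsto_nhds.1 hc _ hε).mono fun σ h => by
      rw [Real.dist_eq] at h
      exact h.le
  have h2 : ∀ᶠ σ : ι → ι → ℂ in 𝓝 (fun i j => τ i j),
      ∀ a b, |FP.Pm (Matrix.of σ) a b - FP.Pm τ a b| ≤ δ * d / (n + 1) := h1
  obtain ⟨r, hr, h3⟩ := Metric.eventually_nhds_iff.1 h2
  refine ⟨r / 2, by linarith, fun σ hσ x => ?_⟩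
  have h4 := h3 (y := fun i j => σ i j) (by
    refine (dist_pi_lt_iff hr).2 fun i => (dist_pi_lt_iff hr).2 fun j => ?_
    rw [dist_eq_norm]
    linarith [hσ i j])
  have e : qf σ x - qf τ x = ∑ a, ∑ b, (FP.Pm σ a b - FP.Pm τ a b) * x a * x b := by
    rw [qf, qf, ths_form, ths_form, ← Finset.sum_sub_distrib]
    refine Finset.sum_congr rfl fun a _ => ?_
    rw [← Finset.sum_sub_distrib]
    exact Finset.sum_congr rfl fun b _ => by ring
  have h5 : |qf σ x - qf τ x| ≤ δ * d / (n + 1) * (∑ a, |x a|) ^ 2 := by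
    rw [e, sq, Finset.sum_mul_sum, Finset.mul_sum]
    refine (Finset.abs_sum_le_sum_abs _ _).trans (Finset.sum_le_sum fun a _ => ?_)
    rw [Finset.mul_sum]
    refine (Finset.abs_sum_le_sum_abs _ _).trans (Finset.sum_le_sum fun b _ => ?_)
    rw [abs_mul, abs_mul, mul_assoc]
    exact mul_le_mul_of_nonneg_right (h4 a b) (by positivity)
  have h6 : (∑ a, |x a|) ^ 2 ≤ (n + 1) * ∑ a, x a ^ 2 := by
    have h := sq_sum_le_card_mul_sum_sq (s := Finset.univ) (f := fun a => |x a|)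
    simp only [sq_abs, Finset.card_univ] at h
    rw [← hn] at h
    have : 0 ≤ ∑ a, x a ^ 2 := Finset.sum_nonneg fun _ _ => sq_nonneg _
    nlinarith
  refine h5.trans ((mul_le_mul_of_nonneg_left h6 hε.le).trans ?_)
  rw [← mul_assoc, div_mul_cancel₀ _ (by positivity), mul_assoc]
  exact mul_le_mul_of_nonneg_left (hl x) hδ.le

omit [DecidableEq ι] in
theorem norm_U (y : ι ⊕ ι → ℝ) (f : (ι ⊕ ι → ℝ) → ℂ) (x : ι ⊕ ι → ℝ) :
    ‖U 1 y f x‖ = ‖f (x + y)‖ := by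
  have e : (((1 : ℝ) : ℂ) * E y x / 2) = ((E y x / 2 : ℝ) : ℂ) := by push_cast; ring
  rw [U_apply, e, norm_mul, norm_ee_real, one_mul]

/-- The theta function is bounded by the theta constants. -/
theorem norm_Th_le_t2 (hτ : InH τ) (x : ι ⊕ ι → ℝ) :
    ‖Th τ x‖ ≤ 2 ^ Fintype.card ι * ‖t2 τ‖ := by
  have h := norm_Th_le_null hτ (N := ‖t2 τ‖) (fun e => norm_le_pi_norm (t2 τ) e) x
  refine le_of_pow_le_pow_left₀ (n := 3) (by norm_num) (by positivity) (h.trans ?_)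
  rw [mul_pow]
  refine mul_le_mul_of_nonneg_right ?_ (by positivity)
  exact le_self_pow₀ (one_le_pow₀ one_le_two) (by norm_num)

theorem t2_low (hτ : InH τ) : 1 ≤ 2 ^ Fintype.card ι * ‖t2 τ‖ := by
  obtain ⟨e, he⟩ := null_low hτ
  refine le_of_pow_le_pow_left₀ (n := 3) (by norm_num) (by positivity) ?_
  rw [one_pow, mul_pow]
  refine he.trans (mul_le_mul (le_self_pow₀ (one_le_pow₀ one_le_two) (by norm_num))
    (pow_le_pow_left₀ (norm_nonneg _) (norm_le_pi_norm (t2 τ) e) 3) (by positivity) (by positivity))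

end MF.An
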