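import Pool.Agent.Lib.MP_33b3f9_ag.MF.An.Thb

/-!
Almost proportional torsion vectors come from a small symplectic matrix.
-/

set_option autoImplicit false

namespace MF.An

open Complex Matrix M4 ComplexConjugate

variable {ι : Type} [Fintype ι] [DecidableEq ι] {σ : Matrix ι ι ℂ}

theorem abs_E_le (hσ : InH σ) (x y : ι ⊕ ι → ℝ) : |E x y| ≤ (qf σ x + qf σ y) / 2 := by
  obtain ⟨g, hg, e⟩ := FP.Pm_fac hσ
  have h1 : ∀ v, qf σ v = ∑ i, ((g *ᵥ v) (Sum.inl i) ^ 2 + (g *ᵥ v) (Sum.inr i) ^ 2) := fun v => by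
    rw [qf, e, ← mulVec_mulVec, dotProduct_mulVec, vecMul_transpose, dotProduct,
      Fintype.sum_sum_type, Finset.sum_add_distrib]
    simp only [sq]
  rw [← one_mul (E x y), ← FP.sim_of_mem hg x y, h1, h1, ← Finset.sum_add_distrib, Finset.sum_div]
  refine (Finset.abs_sum_le_sum_abs _ _).trans (Finset.sum_le_sum fun i _ => abs_le.2 ⟨?_, ?_⟩)
  · nlinarith [sq_nonneg ((g *ᵥ x) (Sum.inl i) + (g *ᵥ y) (Sum.inr i)),
      sq_nonneg ((g *ᵥ x) (Sum.inr i) - (g *ᵥ y) (Sum.inl i))]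
  · nlinarith [sq_nonneg ((g *ᵥ x) (Sum.inl i) - (g *ᵥ y) (Sum.inr i)),
      sq_nonneg ((g *ᵥ x) (Sum.inr i) + (g *ᵥ y) (Sum.inl i))]

theorem simR_inv {R : Type} [CommRing R] {u : Matrix (ι ⊕ ι) (ι ⊕ ι) R} {c : R} (hu : Kz.SimR u c)
    (hc : IsUnit c) : ∃ v, v * u = 1 ∧ u * v = 1 ∧ Function.Bijective u.mulVec := by
  obtain ⟨c', h⟩ := hc.exists_left_inv
  have h1 : (c' • Kz.adj u) * u = 1 := by rw [smul_mul_assoc, hu.adj_mul, smul_smul, h, one_smul]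
  have h2 := mul_eq_one_comm.1 h1
  refine ⟨_, h1, h2, Function.bijective_iff_has_inverse.2 ⟨(c' • Kz.adj u).mulVec, fun x => ?_,
    fun x => ?_⟩⟩
  · rw [mulVec_mulVec, h1, one_mulVec]
  · rw [mulVec_mulVec, h2, one_mulVec]

theorem simR_of_basis {W g A : Matrix (ι ⊕ ι) (ι ⊕ ι) ℤ} {M : ℤ} (hM : M ≠ 0)
    (ga : g * A = M • (1 : Matrix (ι ⊕ ι) (ι ⊕ ι) ℤ))
    (h : ∀ i j, Kz.Ef (W *ᵥ g *ᵥ Pi.single i 1) (W *ᵥ g *ᵥ Pi.single j 1) =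
      Kz.Ef (g *ᵥ Pi.single i 1) (g *ᵥ Pi.single j 1)) : Kz.SimR W 1 := by
  have e : ∀ a : ι ⊕ ι → ℤ, a = ∑ i, a i • (Pi.single i 1 : ι ⊕ ι → ℤ) := fun a => by
    funext j
    simp [Pi.single_apply]
  have h1 : ∀ a b, Kz.Ef (W *ᵥ g *ᵥ a) (W *ᵥ g *ᵥ b) = Kz.Ef (g *ᵥ a) (g *ᵥ b) := fun a b => by
    rw [e a, e b]
    simp only [mulVec_sum, mulVec_smul, Kz.Ef_sum_left, Kz.Ef_sum_right, Kz.Ef_smul_left,
      Kz.Ef_smul_right, h]
  intro x y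
  have h2 := h1 (A *ᵥ x) (A *ᵥ y)
  simp only [mulVec_mulVec _ g A, ga, smul_mulVec, one_mulVec, mulVec_smul, Kz.Ef_smul_left,
    Kz.Ef_smul_right] at h2
  rw [one_mul]
  exact mul_left_cancel₀ hM (mul_left_cancel₀ hM h2)

theorem nums {B R K n x y N : ℝ} (hB : 1 ≤ B) (R1 : 1 ≤ R) (K1 : 16 * R ≤ K)
    (K2 : (n + 5) * R ≤ K) (n0 : 0 ≤ n) (x1 : 1 ≤ x) (y1 : 1 ≤ y)
    (hN : 2 * (B * K) ^ 2 * (x * y) ^ 2 ≤ N) : B * x * R ≤ N ^ 2 ∧ B * y * R ≤ N ^ 2 ∧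
      B * y * ((n + 3 + x) * R) < N ∧ 2 * x * (B * x) ≤ N / 8 ∧ K ^ 2 * (B * x) + B * x < N ^ 2 := by
  have K0 : 16 ≤ K := by linarith
  have a1 : 1 ≤ B * K := one_le_mul_of_one_le_of_one_le hB (by linarith)
  have a2 : 1 ≤ x * y := one_le_mul_of_one_le_of_one_le x1 y1
  have a3 : B * K ≤ (B * K) ^ 2 := le_self_pow₀ a1 two_ne_zero
  have a4 : x * y ≤ (x * y) ^ 2 := le_self_pow₀ a2 two_ne_zero
  have a5 : x ≤ x * y := le_mul_of_one_le_right (by linarith) y1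
  have a6 : y ≤ x * y := le_mul_of_one_le_left (by linarith) x1
  have s0 : 0 < (B * K) ^ 2 * (x * y) ^ 2 := by positivity
  have s1 : B * K * (x * y) ^ 2 ≤ (B * K) ^ 2 * (x * y) ^ 2 := by gcongr
  have s2 : B * K * (x * y) ≤ B * K * (x * y) ^ 2 := by gcongr
  have s3 : 1 ≤ B * K * (x * y) := one_le_mul_of_one_le_of_one_le a1 a2
  have N2 : N ≤ N ^ 2 := le_self_pow₀ (by linarith) two_ne_zero
  have t1 : B * R * x ≤ B * K * (x * y) := by gcongr; linarith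
  have t2 : B * R * y ≤ B * K * (x * y) := by gcongr; linarith
  have t3 : (n + 3 + x) * R ≤ K * x := by
    nlinarith [mul_le_mul_of_nonneg_right K2 (by linarith : 0 ≤ x),
      mul_nonneg (mul_nonneg (by linarith : 0 ≤ n + 4) (by linarith : 0 ≤ R)) (sub_nonneg.2 x1)]
  have t4 : B * y * ((n + 3 + x) * R) ≤ B * y * (K * x) := by gcongr
  have t5 : B * 16 * x ^ 2 ≤ B * K * (x * y) ^ 2 := by gcongr
  have t6 : B * x < K ^ 2 * (B * x) := lt_mul_of_one_lt_left (by positivity) (by nlinarith)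
  have t7 : B * x ≤ B ^ 2 * (x * y) ^ 2 :=
    mul_le_mul (le_self_pow₀ hB two_ne_zero) (a5.trans a4) (by linarith) (by positivity)
  have t8 := mul_le_mul_of_nonneg_left t7 (sq_nonneg K)
  exact ⟨by linarith, by linarith, by linarith, by linarith, by linarith⟩

theorem gram0 (ι : Type) [Fintype ι] [DecidableEq ι] {B : ℝ} (hB : 1 ≤ B) : ∃ C : ℝ,
    ∀ (σ σ' : Matrix ι ι ℂ) (g A g' A' : Matrix (ι ⊕ ι) (ι ⊕ ι) ℤ) (M M' N : ℕ) [NeZero N]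
    (u u' : Matrix (ι ⊕ ι) (ι ⊕ ι) (ZMod (N ^ 2))) (c : ZMod (N ^ 2)), Lt B σ g A M →
    Lt B σ' g' A' M' → C * (M * M') ^ 2 ≤ N → Odd N → IsUnit c → Kz.SimR u c → Kz.SimR u' c →
    (1 - 1 / 64) *
      ((∑ p : (ι ⊕ ι → Fin 2) × (ι ⊕ ι → ZMod (N ^ 2)), ‖Xq σ N p.1 (u *ᵥ p.2)‖ ^ 2) *
        ∑ p : (ι ⊕ ι → Fin 2) × (ι ⊕ ι → ZMod (N ^ 2)), ‖Xq σ' N p.1 (u' *ᵥ p.2)‖ ^ 2) ≤
      ‖∑ p : (ι ⊕ ι → Fin 2) × (ι ⊕ ι → ZMod (N ^ 2)),
        Xq σ N p.1 (u *ᵥ p.2) * conj (Xq σ' N p.1 (u' *ᵥ p.2))‖ ^ 2 →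
    ∃ W : Matrix (ι ⊕ ι) (ι ⊕ ι) ℤ, Kz.SimR W 1 ∧ Kz.mZ (N ^ 2) W * u = u' ∧
      ∀ i j, (((A' * W * g) i j : ℤ) : ℝ) ^ 2 ≤ C * M * M' := by
  obtain ⟨R, R1, hR⟩ := transfer ι
  obtain ⟨n, hn⟩ : ∃ n : ℝ, n = Fintype.card (ι ⊕ ι) := ⟨_, rfl⟩
  have n0 : 0 ≤ n := hn ▸ Nat.cast_nonneg _
  obtain ⟨K, hK⟩ : ∃ K : ℝ, K = 16 * (n + 1) * R := ⟨_, rfl⟩
  have K1 : 16 * R ≤ K := by nlinarith
  have K2 : (n + 5) * R ≤ K := by nlinarith
  refine ⟨2 * (B * K) ^ 2, fun σ σ' g A g' A' M M' N _ u u' c h h' hN hO hc hu hu' hcl => ?_⟩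
  have M1 : (1 : ℝ) ≤ M := by exact_mod_cast h.pos
  have M2 : (1 : ℝ) ≤ M' := by exact_mod_cast h'.pos
  have N1 : (1 : ℝ) ≤ N := by exact_mod_cast Nat.one_le_iff_ne_zero.2 (NeZero.ne N)
  obtain ⟨s1, s2, s3, s4, s5⟩ := nums hB R1 K1 K2 n0 M1 M2 hN
  obtain ⟨v, vu, uv, hi⟩ := simR_inv hu hc
  obtain ⟨-, -, -, hi'⟩ := simR_inv hu' hc
  have key := hR B σ σ' g A g' A' M M' N u u' c h h' hB s1 s2 hO hu hu' hi hi' hcl
  obtain ⟨p, hp⟩ := exists_seminorm h.inH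
  obtain ⟨q, hq⟩ := exists_seminorm h'.inH
  obtain ⟨D, hD⟩ : ∃ D : Matrix (ι ⊕ ι) (ι ⊕ ι) ℤ, Kz.mZ (N ^ 2) D = u' * v :=
    ⟨Matrix.of fun i j => ((u' * v) i j).val, by ext i j; simp [Kz.mZ]⟩
  have up : ∀ w : ι ⊕ ι → ℝ, (∀ i, |w i| ≤ 1) → p (g.map (Int.cast : ℤ → ℝ) *ᵥ w) ≤ B * M :=
    fun w hw => by
      refine le_of_pow_le_pow_left₀ two_ne_zero (by positivity) ?_
      rw [hp]
      exact (h.up w hw).trans (le_self_pow₀ (by nlinarith) two_ne_zero)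
  obtain ⟨W, hW, hle⟩ := lift_ex p q g A D ((N ^ 2 : ℕ) : ℤ) (ρ := N / 8) (r := R * N) h.pos
    (by positivity) (by positivity)
    (fun v hv => by
      by_contra h0
      have := qf_pos h.inH h0
      rw [← hp, hv] at this
      simp at this) h.ga h.ag
    (fun b hb => by
      obtain ⟨m, hm⟩ := key (v *ᵥ Kz.vZ (N ^ 2) b) b (D *ᵥ b)
        (by rw [mulVec_mulVec, uv, one_mulVec]) (by rw [mulVec_mulVec, ← hD, Kz.mZ_mulVec]) (by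
          rw [Kz.rq, qf_smul, ← hp, inv_pow, inv_mul_le_iff₀ (by positivity)]
          nlinarith [apply_nonneg p (rz b)])
      refine ⟨m, le_of_pow_le_pow_left₀ two_ne_zero (by positivity) ?_⟩
      have e : rz (D *ᵥ b + ((N ^ 2 : ℕ) : ℤ) • m) =
          (N : ℝ) • (Kz.rq N (D *ᵥ b) + (N : ℝ) • rz m) := by
        rw [smul_add, Kz.rq, smul_smul, mul_inv_cancel₀ (by linarith), one_smul, smul_smul,
          Kz.rz_add, Kz.rz_zsmul]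
        simp [sq]
      rw [hq, e, qf_smul, mul_pow, mul_comm]
      exact mul_le_mul_of_nonneg_right (hm.trans (le_self_pow₀ R1 two_ne_zero)) (by positivity))
    (fun m hm => by
      have a1 := h'.one_le hm
      have a2 : 1 ≤ B * M' * q (rz m) := by
        refine le_of_pow_le_pow_left₀ two_ne_zero (by positivity) ?_
        rw [mul_pow, hq, one_pow]
        exact a1.trans (mul_le_mul_of_nonneg_right (le_self_pow₀ (by nlinarith) two_ne_zero)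
          (qf_nonneg h'.inH _))
      rw [Kz.rz_zsmul, map_smul_eq_mul, Int.cast_natCast, Real.norm_natCast, ← hn, Nat.cast_pow]
      refine lt_of_mul_lt_mul_left ?_ (by positivity : 0 ≤ B * M')
      linarith [mul_lt_mul_of_pos_right s3 (by linarith : (0 : ℝ) < N),
        mul_le_mul_of_nonneg_left a2 (by positivity : (0 : ℝ) ≤ N ^ 2)]) up s4
  have eK : 2 * (n + 1) * (R * N) / (N / 8) = K := by
    rw [hK]
    field_simp
    norm_num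
  rw [← hn, eK] at hle
  have eW : Kz.mZ (N ^ 2) W = u' * v := by
    rw [← hD]
    ext i j
    exact ((ZMod.intCast_eq_intCast_iff_dvd_sub _ _ _).2 (hW i j)).symm
  have b1 : ∀ i, qf σ (rz (g *ᵥ Pi.single i 1)) ≤ B * M := fun i => by
    rw [rz_mulVec]
    refine h.up _ fun j => ?_
    by_cases a : j = i <;> simp [rz, a]
  have b2 : ∀ i, qf σ' (rz (W *ᵥ g *ᵥ Pi.single i 1)) ≤ K ^ 2 * (B * M) := fun i => by
    rw [rz_mulVec, ← hq]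
    refine (pow_le_pow_left₀ (apply_nonneg _ _) (hle _) 2).trans ?_
    rw [mul_pow, hp]
    exact mul_le_mul_of_nonneg_left (b1 i) (by positivity)
  refine ⟨W, simR_of_basis (by have := h.pos; omega) h.ga fun i j => ?_,
    by rw [eW, Matrix.mul_assoc, vu, Matrix.mul_one], fun i j => ?_⟩
  · refine sub_eq_zero.1 (Int.eq_zero_of_abs_lt_dvd (m := ((N ^ 2 : ℕ) : ℤ)) ?_ ?_)
    · rw [← ZMod.intCast_eq_intCast_iff_dvd_sub, ← Kz.Ef_vZ, ← Kz.Ef_vZ, ← Kz.mZ_mulVec _ W,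
        ← Kz.mZ_mulVec _ W, eW, ← mulVec_mulVec, ← mulVec_mulVec, hu', ← hu, mulVec_mulVec _ u,
        mulVec_mulVec _ u, uv, one_mulVec, one_mulVec]
    · have a1 := abs_E_le h.inH (rz (g *ᵥ Pi.single i 1)) (rz (g *ᵥ Pi.single j 1))
      have a2 := abs_E_le h'.inH (rz (W *ᵥ g *ᵥ Pi.single i 1)) (rz (W *ᵥ g *ᵥ Pi.single j 1))
      rw [Kz.E_eq, Kz.Ef_rz] at a1 a2
      rw [← Int.cast_lt (R := ℝ), Int.cast_abs, Int.cast_sub, Int.cast_natCast, Nat.cast_pow]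
      refine (abs_sub _ _).trans_lt ?_
      linarith [b1 i, b1 j, b2 i, b2 j]
  · have a1 := h'.low (rz (W *ᵥ g *ᵥ Pi.single j 1))
    rw [← rz_mulVec, mulVec_mulVec, mulVec_mulVec] at a1
    have a2 := (Finset.single_le_sum (fun k _ => sq_nonneg _) (Finset.mem_univ i)).trans a1
    have a3 := mul_le_mul_of_nonneg_left (b2 j) (by positivity : 0 ≤ B * M')
    have a4 : rz ((A' * W * g) *ᵥ Pi.single j 1) i = ((A' * W * g) i j : ℤ) := by simp [rz]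
    rw [← a4]
    have a5 : 0 ≤ (B * K) ^ 2 * M * M' := by positivity
    linarith

end MF.An
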