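import Pool.Agent.Lib.MP_33b3f9_ag.MF.An.Defs

/-!
Harnack inequality for the norm of the theta constants.
-/

set_option autoImplicit false

namespace MF.An

open Complex Matrix M4

variable {ι : Type} [Fintype ι] [DecidableEq ι] {τ : Matrix ι ι ℂ}

theorem det_mono {Y Z : Matrix ι ι ℝ} (hY : Y.PosDef) (hZ : Z.PosDef) {K : ℝ} (hK : 0 < K)
    (h : ∀ a : ι → ℝ, a ⬝ᵥ Y *ᵥ a ≤ K * (a ⬝ᵥ Z *ᵥ a)) :
    Y.det ≤ K ^ Fintype.card ι * Z.det := by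
  obtain ⟨B, hB, rfl⟩ := red1_sqrt hY
  have hd : IsUnit B.det := (isUnit_iff_isUnit_det B).1 hB
  have e : star B = Bᵀ := by rw [star_eq_conjTranspose, conjTranspose_eq_transpose_of_trivial]
  have h1 := pow_le_det (isHermitian_conjTranspose_mul_mul B⁻¹ hZ.isHermitian) (κ := K⁻¹)
    (inv_nonneg.2 hK.le) fun x => by
      have h2 := h (B⁻¹ *ᵥ x)
      rw [e, ← mulVec_mulVec, dotProduct_mulVec, vecMul_transpose, mulVec_mulVec,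
        mul_nonsing_inv _ hd, one_mulVec] at h2
      rw [conjTranspose_eq_transpose_of_trivial, ← mulVec_mulVec, ← mulVec_mulVec,
        dotProduct_mulVec x, vecMul_transpose, inv_mul_le_iff₀ hK]
      exact h2
  rw [conjTranspose_eq_transpose_of_trivial, det_mul, det_mul, det_transpose, det_nonsing_inv,
    Ring.inverse_eq_inv, inv_pow] at h1
  have h0 : B.det ≠ 0 := hd.ne_zero
  have h3 : 0 < B.det * B.det := mul_self_pos.2 h0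
  rw [e, det_mul, det_transpose]
  have h4 := mul_le_mul_of_nonneg_left h1 (mul_pos (pow_pos hK (Fintype.card ι)) h3).le
  refine le_trans (le_of_eq ?_) (h4.trans (le_of_eq ?_))
  · field_simp
  · field_simp

/-- The transformation law in absolute values. -/
theorem law_norm {γ : Matrix (ι ⊕ ι) (ι ⊕ ι) ℤ} (hγ : γ ∈ symplecticGroup ι ℤ) (hτ : InH τ) :
    ∃ (c : ℝ) (y : ι ⊕ ι → ℝ), 0 ≤ c ∧ c ^ 4 * ((act (mz γ) τ).map im).det = (τ.map im).det ∧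
      ∀ x, ‖Th (act (mz γ) τ) (mz γ *ᵥ x)‖ = c * ‖Th τ (x + y)‖ := by
  obtain ⟨k, c, h1, h2⟩ := law_of_mem hγ τ hτ
  refine ⟨‖c‖, hf k, norm_nonneg _, ?_, fun x => by rw [h2, norm_mul, norm_U]⟩
  have h3 := congrArg norm h1
  rw [norm_pow, norm_pow] at h3
  have h4 : ‖c‖ ^ 4 = ‖(den (mz γ) τ).det‖ ^ 2 := by
    refine (pow_left_inj₀ (by positivity) (by positivity) two_ne_zero).1 ?_
    rw [← pow_mul, ← pow_mul]
    exact h3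
  rw [h4, mul_comm, det_im_act hγ hτ]

theorem sim_surj {g : Matrix (ι ⊕ ι) (ι ⊕ ι) ℝ} {μ : ℝ} (hg : Sim g μ) (hμ : μ ≠ 0)
    (y : ι ⊕ ι → ℝ) : ∃ x, y = g *ᵥ x :=
  ⟨g⁻¹ *ᵥ y, by rw [mulVec_mulVec, mul_nonsing_inv _ (hg.det_ne_zero hμ).isUnit, one_mulVec]⟩

theorem qf_le_act {g : Matrix (ι ⊕ ι) (ι ⊕ ι) ℝ} {μ K : ℝ} (hg : Sim g μ) (hμ : 0 < μ)
    {σ : Matrix ι ι ℂ} (hτ : InH τ) (hσ : InH σ) (h : ∀ x, qf τ x ≤ K * qf σ x)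
    (y : ι ⊕ ι → ℝ) : qf (act g τ) y ≤ K * qf (act g σ) y := by
  obtain ⟨x, rfl⟩ := sim_surj hg hμ.ne' y
  rw [qf_act hg hμ hτ, qf_act hg hμ hσ, mul_left_comm]
  exact mul_le_mul_of_nonneg_left (h x) hμ.le

theorem harn0 (ι : Type) [Fintype ι] [DecidableEq ι] (K : ℝ) : ∃ C : ℝ, 0 < C ∧
    ∀ ρ1 ρ2 : Matrix ι ι ℂ, InH ρ1 → InH ρ2 → (∀ x, qf ρ1 x ≤ K * qf ρ2 x) →
      (∀ x, qf ρ2 x ≤ K * qf ρ1 x) → ∀ x, ‖Th ρ1 x‖ ≤ C * ‖t2 ρ2‖ := by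
  obtain ⟨c, hc, hred⟩ := siegel_red' ι
  obtain ⟨L, hL⟩ : ∃ L : ℝ, L = max K 1 := ⟨_, rfl⟩
  have hL1 : 1 ≤ L := hL ▸ le_max_right _ _
  have hLK : K ≤ L := hL ▸ le_max_left _ _
  have hL0 : 0 < L := by linarith
  obtain ⟨C, hC⟩ := norm_Th_bound (ι := ι) (div_pos hc hL0)
  obtain ⟨n, hn⟩ : ∃ n, n = Fintype.card ι := ⟨_, rfl⟩
  refine ⟨2 ^ n * 2 ^ n * L ^ n * max C 1, by positivity, fun ρ1 ρ2 h1 h2 a1 a2 x => ?_⟩
  have b1 : ∀ x, qf ρ1 x ≤ L * qf ρ2 x := fun x =>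
    (a1 x).trans (mul_le_mul_of_nonneg_right hLK (qf_nonneg h2 x))
  have b2 : ∀ x, qf ρ2 x ≤ L * qf ρ1 x := fun x =>
    (a2 x).trans (mul_le_mul_of_nonneg_right hLK (qf_nonneg h1 x))
  obtain ⟨γ, hγ, hr⟩ := hred ρ2 h2
  have hs := sim_mz_iff.2 hγ
  have s1 := inH_act hs one_pos h1
  have s2 := inH_act hs one_pos h2
  have i1 := im_le_of_qf s1 s2 (qf_le_act hs one_pos h1 h2 b1)
  have i2 := im_le_of_qf s2 s1 (qf_le_act hs one_pos h2 h1 b2)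
  have d1 := det_mono s1.2 s2.2 hL0 i1
  have d2 := det_mono h2.2 h1.2 hL0 (im_le_of_qf h2 h1 b2)
  obtain ⟨c1, y1, p1, e1, f1⟩ := law_norm hγ h1
  obtain ⟨c2, y2, p2, e2, f2⟩ := law_norm hγ h2
  rw [← hn] at d1 d2
  have k1 : c1 * ‖Th ρ1 x‖ ≤ max C 1 := by
    have h3 := f1 (x - y1)
    rw [sub_add_cancel] at h3
    rw [← h3]
    refine (hC _ s1 (fun v => ?_) _).trans (le_max_left _ _)
    rw [div_mul_eq_mul_div, div_le_iff₀ hL0, mul_comm _ L]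
    exact (hr v).trans (i2 v)
  have k2 : ‖t2 (act (mz γ) ρ2)‖ ≤ c2 * (2 ^ n * ‖t2 ρ2‖) := by
    refine (pi_norm_le_iff_of_nonneg (by positivity)).2 fun e => ?_
    obtain ⟨z, hz⟩ := sim_surj hs one_ne_zero (hf (bz e))
    rw [t2, hz, f2, hn]
    exact mul_le_mul_of_nonneg_left (norm_Th_le_t2 h2 _) p2
  have k3 := t2_low s2
  rw [← hn] at k3
  have k4 : c2 ≤ L ^ n * c1 := by
    refine le_of_pow_le_pow_left₀ (n := 4) (by norm_num) (by positivity) ?_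
    refine le_of_mul_le_mul_right ?_ s2.2.det_pos
    have hLn : 1 ≤ L ^ n := one_le_pow₀ hL1
    have h5 : (L ^ n) ^ 2 ≤ (L ^ n) ^ 4 := pow_le_pow_right₀ hLn (by norm_num)
    have h6 := s2.2.det_pos
    calc c2 ^ 4 * ((act (mz γ) ρ2).map im).det = (ρ2.map im).det := e2
      _ ≤ L ^ n * (ρ1.map im).det := d2
      _ = L ^ n * c1 ^ 4 * ((act (mz γ) ρ1).map im).det := by rw [← e1]; ring
      _ ≤ L ^ n * c1 ^ 4 * (L ^ n * ((act (mz γ) ρ2).map im).det) := by gcongr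
      _ = (L ^ n) ^ 2 * (c1 ^ 4 * ((act (mz γ) ρ2).map im).det) := by ring
      _ ≤ (L ^ n) ^ 4 * (c1 ^ 4 * ((act (mz γ) ρ2).map im).det) := by gcongr
      _ = _ := by ring
  calc ‖Th ρ1 x‖ = 1 * ‖Th ρ1 x‖ := (one_mul _).symm
    _ ≤ (2 ^ n * (L ^ n * c1 * (2 ^ n * ‖t2 ρ2‖))) * ‖Th ρ1 x‖ := by
        refine mul_le_mul_of_nonneg_right (k3.trans ?_) (norm_nonneg _)
        exact mul_le_mul_of_nonneg_left (k2.trans (by gcongr)) (by positivity)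
    _ = 2 ^ n * 2 ^ n * L ^ n * (c1 * ‖Th ρ1 x‖) * ‖t2 ρ2‖ := by ring
    _ ≤ _ := by gcongr

/-- Nearby points have comparable forms. -/
theorem qf_comp (hτ : InH τ) : ∃ r : ℝ, 0 < r ∧ ∀ τ1 τ2 : Matrix ι ι ℂ,
    (∀ i j, ‖τ1 i j - τ i j‖ ≤ r) → (∀ i j, ‖τ2 i j - τ i j‖ ≤ r) →
      ∀ x, qf τ1 x ≤ 2 * qf τ2 x := by
  obtain ⟨r, hr, h⟩ := qf_near hτ (δ := 1 / 3) (by norm_num)
  refine ⟨r, hr, fun τ1 τ2 h1 h2 x => ?_⟩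
  have a1 := abs_le.1 (h τ1 h1 x)
  have a2 := abs_le.1 (h τ2 h2 x)
  linarith [a1.2, a2.1]

theorem harn (hτ : InH τ) : ∃ r C : ℝ, 0 < r ∧ 0 < C ∧
    ∀ (g : Matrix (ι ⊕ ι) (ι ⊕ ι) ℝ) (μ : ℝ), 0 < μ → Sim g μ → ∀ τ1 τ2 : Matrix ι ι ℂ,
      InH τ1 → InH τ2 → (∀ i j, ‖τ1 i j - τ i j‖ ≤ r) → (∀ i j, ‖τ2 i j - τ i j‖ ≤ r) →
        ‖t2 (act g τ1)‖ ≤ C * ‖t2 (act g τ2)‖ := by
  obtain ⟨r, hr, h⟩ := qf_comp hτ
  obtain ⟨C, hC, H⟩ := harn0 ι 2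
  refine ⟨r, C, hr, hC, fun g μ hμ hg τ1 τ2 h1 h2 a1 a2 => ?_⟩
  refine (pi_norm_le_iff_of_nonneg (by positivity)).2 fun e => ?_
  exact H _ _ (inH_act hg hμ h1) (inH_act hg hμ h2) (qf_le_act hg hμ h1 h2 (h _ _ a1 a2))
    (qf_le_act hg hμ h2 h1 (h _ _ a2 a1)) _

end MF.An
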