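import Pool.Agent.Lib.MP_33b3f9_ag.MF.An.Defs
import Pool.Agent.Lib.MP_33b3f9_ag.M4.KzDefs

/-!
Lifting of a map modulo a large integer.
-/

set_option autoImplicit false

namespace MF.An

open Complex Matrix M4

section lift

variable {κ : Type} [Fintype κ] [DecidableEq κ]

omit [DecidableEq κ] in
theorem rz_mulVec (D : Matrix κ κ ℤ) (b : κ → ℤ) :
    rz (D *ᵥ b) = D.map (Int.cast : ℤ → ℝ) *ᵥ rz b := by
  funext i
  simp [rz, mulVec, dotProduct]

theorem map_map {g A : Matrix κ κ ℤ} {M : ℕ} (h : g * A = (M : ℤ) • (1 : Matrix κ κ ℤ))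
    (v : κ → ℝ) : g.map (Int.cast : ℤ → ℝ) *ᵥ A.map (Int.cast : ℤ → ℝ) *ᵥ v = (M : ℝ) • v := by
  have e : ((M : ℤ) • (1 : Matrix κ κ ℤ)).map (Int.cast : ℤ → ℝ) = (M : ℝ) • 1 := by
    ext i j
    rw [map_apply, Matrix.smul_apply, Matrix.smul_apply, one_apply, one_apply]
    split_ifs <;> simp
  rw [mulVec_mulVec, ← Matrix.map_mul_intCast, h, e, smul_mulVec, one_mulVec]

theorem lift_bound (p q : Seminorm ℝ (κ → ℝ)) (D : Matrix κ κ ℤ) (Q : ℤ) {ρ r : ℝ} (hρ : 0 < ρ)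
    (hr : 0 ≤ r) (hp : ∀ v, p v = 0 → v = 0)
    (ha : ∀ b, p (rz b) ≤ ρ → ∃ n, q (rz (D *ᵥ b + Q • n)) ≤ r)
    (hb : ∀ i, q (rz (D *ᵥ Pi.single i 1)) ≤ r)
    (hc : ∀ n : κ → ℤ, n ≠ 0 → (Fintype.card κ + 3) * r < q (rz (Q • n)))
    (hd : ∀ v : κ → ℝ, (∀ i, |v i| ≤ 1) → p v ≤ ρ / 2) (v : κ → ℝ) :
    q (D.map (Int.cast : ℤ → ℝ) *ᵥ v) ≤ 2 * (Fintype.card κ + 1) * r / ρ * p v := by
  obtain ⟨A, hA⟩ : ∃ A, A = D.map (Int.cast : ℤ → ℝ) := ⟨_, rfl⟩
  obtain ⟨n, hn⟩ : ∃ n : ℝ, n = Fintype.card κ := ⟨_, rfl⟩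
  have hn0 : 0 ≤ n := hn ▸ Nat.cast_nonneg _
  have hz : ∀ b, rz (D *ᵥ b) = A *ᵥ rz b := fun b => hA ▸ rz_mulVec D b
  rw [← hA, ← hn]
  rw [← hn] at hc
  have c1 : ∀ v : κ → ℝ, (∀ i, |v i| ≤ 1) → q (A *ᵥ v) ≤ n * r := fun v hv => by
    have e : A *ᵥ v = ∑ i, v i • rz (D *ᵥ Pi.single i 1) := by
      funext j
      simp [hA, rz, mulVec, dotProduct, mul_comm]
    rw [e, hn, ← nsmul_eq_mul, ← Finset.card_univ]
    refine (Finset.le_sum_of_subadditive q (map_zero q).le (map_add_le_add q) _ _).trans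
      (Finset.sum_le_card_nsmul _ _ _ fun i _ => ?_)
    rw [map_smul_eq_mul, Real.norm_eq_abs]
    exact (mul_le_mul (hv i) (hb i) (apply_nonneg _ _) zero_le_one).trans_eq (one_mul r)
  have c2 : ∀ b, p (rz b) ≤ ρ → q (A *ᵥ rz b) ≤ (n + 2) * r → q (A *ᵥ rz b) ≤ r := by
    intro b h1 h2
    obtain ⟨m, hm⟩ := ha b h1
    by_cases h0 : m = 0
    · rwa [h0, smul_zero, add_zero, hz] at hm
    · have h3 := hc m h0
      have h4 := map_sub_le_add q (rz (D *ᵥ b + Q • m)) (A *ᵥ rz b)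
      rw [rz_add, hz, add_sub_cancel_left, ← hz, ← rz_add, hz] at h4
      linarith
  have c3 : ∀ (k : ℕ) (b : κ → ℤ), (∀ i, |b i| ≤ k + 1) → p (rz b) ≤ ρ → q (A *ᵥ rz b) ≤ r := by
    intro k
    induction k with
    | zero =>
      intro b h1 h2
      refine c2 b h2 ((c1 _ fun i => ?_).trans (by nlinarith))
      have := h1 i
      simp only [rz]
      exact_mod_cast this
    | succ k ih =>
      intro b h1 h2
      have h3 : p (rz fun i => b i % 2) ≤ ρ / 2 := hd _ fun i => by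
        have : |b i % 2| ≤ 1 := abs_le.2 ⟨by omega, by omega⟩
        simp only [rz]
        exact_mod_cast this
      have half : ∀ (c : κ → ℤ) (s : ℝ), |s| = 1 → (∀ i, |c i| ≤ k + 1) →
          rz c = (1 / 2 : ℝ) • (rz b + s • rz fun i => b i % 2) → q (A *ᵥ rz c) ≤ r := by
        intro c s hs h4 h5
        refine ih c h4 ?_
        have h6 := map_add_le_add p (rz b) (s • rz fun i => b i % 2)
        rw [map_smul_eq_mul, Real.norm_eq_abs, hs] at h6
        rw [h5, map_smul_eq_mul, Real.norm_of_nonneg (by norm_num)]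
        linarith
      have e : ∀ i, (b i : ℝ) = 2 * ((b i / 2 : ℤ) : ℝ) + ((b i % 2 : ℤ) : ℝ) := fun i => by
        exact_mod_cast (Int.mul_ediv_add_emod (b i) 2).symm
      have h7 := half (fun i => b i / 2) (-1) (by simp) (fun i => by
        have := abs_le.1 (h1 i)
        push_cast at this
        exact abs_le.2 ⟨by omega, by omega⟩) (by
        funext i
        simp only [rz, Pi.smul_apply, Pi.add_apply, smul_eq_mul]
        linarith [e i])
      have h8 := half (fun i => b i - b i / 2) 1 (by simp) (fun i => by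
        have := abs_le.1 (h1 i)
        push_cast at this
        exact abs_le.2 ⟨by omega, by omega⟩) (by
        funext i
        simp only [rz, Pi.smul_apply, Pi.add_apply, smul_eq_mul, Int.cast_sub]
        linarith [e i])
      refine c2 b h2 ?_
      have h9 : rz b = (rz fun i => b i / 2) + rz fun i => b i - b i / 2 := by
        funext i
        simp [rz]
      rw [h9, mulVec_add]
      refine (map_add_le_add q _ _).trans ?_
      nlinarith
  have c4 : ∀ v : κ → ℝ, p v ≤ ρ / 2 → q (A *ᵥ v) ≤ (n + 1) * r := fun v hv => by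
    have h1 : ∀ i, |(v - rz fun i => round (v i)) i| ≤ 1 := fun i =>
      (abs_sub_round (v i)).trans (by norm_num)
    have h2 := map_sub_le_add p v (v - rz fun i => round (v i))
    rw [sub_sub_cancel] at h2
    have h3 := c3 (∑ i, (round (v i)).natAbs) (fun i => round (v i)) (fun i => by
      have := Finset.single_le_sum (f := fun i => (round (v i)).natAbs)
        (fun _ _ => Nat.zero_le _) (Finset.mem_univ i)
      rw [← Int.natCast_natAbs]
      omega) (by linarith [hd _ h1])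
    have h4 := map_add_le_add q (A *ᵥ (v - rz fun i => round (v i))) (A *ᵥ rz fun i => round (v i))
    rw [← mulVec_add, sub_add_cancel] at h4
    linarith [c1 _ h1]
  rcases (apply_nonneg p v).eq_or_lt with h0 | h0
  · rw [hp v h0.symm]
    simp
  · have h1 := c4 ((ρ / 2 / p v) • v) (by
      rw [map_smul_eq_mul, Real.norm_of_nonneg (by positivity), div_mul_cancel₀ _ h0.ne'])
    rw [mulVec_smul, map_smul_eq_mul, Real.norm_of_nonneg (by positivity), div_mul_eq_mul_div,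
      div_le_iff₀ h0] at h1
    rw [div_mul_eq_mul_div, le_div_iff₀ hρ]
    linarith

theorem lift_ex (p q : Seminorm ℝ (κ → ℝ)) (g A D : Matrix κ κ ℤ) (Q : ℤ) {M : ℕ} {ρ r s : ℝ}
    (hM : 1 ≤ M) (hρ : 0 < ρ) (hr : 0 ≤ r) (hp : ∀ v, p v = 0 → v = 0)
    (ga : g * A = (M : ℤ) • (1 : Matrix κ κ ℤ)) (ag : A * g = (M : ℤ) • (1 : Matrix κ κ ℤ))
    (ha : ∀ b, p (rz b) ≤ ρ → ∃ n, q (rz (D *ᵥ b + Q • n)) ≤ r)
    (hc : ∀ n : κ → ℤ, n ≠ 0 → (Fintype.card κ + 3 + M) * r < q (rz (Q • n)))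
    (hd : ∀ v : κ → ℝ, (∀ i, |v i| ≤ 1) → p (g.map (Int.cast : ℤ → ℝ) *ᵥ v) ≤ s)
    (hs : 2 * M * s ≤ ρ) : ∃ W : Matrix κ κ ℤ, (∀ i j, Q ∣ (W - D) i j) ∧
      ∀ v, q (W.map (Int.cast : ℤ → ℝ) *ᵥ v) ≤ 2 * (Fintype.card κ + 1) * r / ρ * p v := by
  have M1 : (1 : ℝ) ≤ M := by exact_mod_cast hM
  have s0 : 0 ≤ s := (apply_nonneg _ _).trans (hd 0 (by simp))
  have s1 : s ≤ ρ / 2 := by nlinarith
  have h1 : ∀ i, ∃ n, q (rz (D *ᵥ g *ᵥ Pi.single i 1 + Q • n)) ≤ r := fun i => ha _ (by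
    rw [rz_mulVec]
    refine (hd _ fun j => ?_).trans (by linarith)
    by_cases h : j = i <;> simp [rz, h])
  choose n hn using h1
  obtain ⟨X, hX⟩ : ∃ X : Matrix κ κ ℤ, X = (Matrix.of n)ᵀ := ⟨_, rfl⟩
  have e1 : ∀ b, (D * g + Q • X) *ᵥ b = D *ᵥ g *ᵥ b + Q • X *ᵥ b := fun b => by
    rw [add_mulVec, smul_mulVec, mulVec_mulVec]
  have n0 : (0 : ℝ) ≤ Fintype.card κ := Nat.cast_nonneg _
  have h2 := lift_bound (p.comp (mulVecLin (g.map (Int.cast : ℤ → ℝ)))) q (D * g + Q • X) Q hρ hr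
    (fun v hv => by
      have := map_map ag v
      rw [show g.map (Int.cast : ℤ → ℝ) *ᵥ v = 0 from hp _ hv, mulVec_zero] at this
      exact (smul_eq_zero.1 this.symm).resolve_left (by linarith))
    (fun b hb => by
      obtain ⟨m, hm⟩ := ha (g *ᵥ b) (by rwa [rz_mulVec])
      exact ⟨m - X *ᵥ b, by rwa [e1, smul_sub, add_add_sub_cancel]⟩)
    (fun i => by
      have : X *ᵥ Pi.single i 1 = n i := by
        funext j
        simp [hX]
      rw [e1, this]
      exact hn i)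
    (fun n h => lt_of_le_of_lt (by nlinarith) (hc n h)) (fun v hv => (hd v hv).trans s1)
  simp only [Seminorm.comp_apply, mulVecLin_apply] at h2
  have h3 : ∀ b : κ → ℤ, ∃ x, (M : ℤ) • x = (D * g + Q • X) *ᵥ A *ᵥ b ∧
      ∃ m, x = D *ᵥ b + Q • m := fun b => by
    obtain ⟨w, hw⟩ : ∃ w : κ → ℤ, w = fun i => (A *ᵥ b) i % M := ⟨_, rfl⟩
    obtain ⟨k, hk⟩ : ∃ k : κ → ℤ, k = fun i => (A *ᵥ b) i / M := ⟨_, rfl⟩
    have e2 : A *ᵥ b = (M : ℤ) • k + w := by
      funext i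
      simp [hw, hk, Int.mul_ediv_add_emod]
    have e3 : g *ᵥ w = (M : ℤ) • (b - g *ᵥ k) := by
      rw [smul_sub, ← mulVec_smul, eq_sub_iff_add_eq', ← mulVec_add, ← e2, mulVec_mulVec, ga,
        smul_mulVec, one_mulVec]
    have e4 : rz (b - g *ᵥ k) = g.map (Int.cast : ℤ → ℝ) *ᵥ ((M : ℝ)⁻¹ • rz w) := by
      rw [mulVec_smul, ← rz_mulVec, e3, Kz.rz_zsmul, smul_smul, Int.cast_natCast,
        inv_mul_cancel₀ (by linarith), one_smul]
    have h4 : p (rz (b - g *ᵥ k)) ≤ s := by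
      rw [e4]
      refine hd _ fun i => ?_
      have a1 : (0 : ℝ) ≤ w i := by
        rw [hw]
        exact_mod_cast Int.emod_nonneg _ (by omega)
      have a2 : (w i : ℝ) ≤ M := by
        rw [hw]
        exact_mod_cast (Int.emod_lt_of_pos _ (by omega)).le
      rw [Pi.smul_apply, smul_eq_mul, rz, abs_of_nonneg (by positivity),
        inv_mul_le_iff₀ (by linarith)]
      linarith
    obtain ⟨m, hm⟩ := ha _ (h4.trans (by linarith))
    have h5 : X *ᵥ w - (M : ℤ) • m = 0 := by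
      by_contra h0
      have a1 := hc _ h0
      have a2 : Q • (X *ᵥ w - (M : ℤ) • m) =
          (D * g + Q • X) *ᵥ w - (M : ℤ) • (D *ᵥ (b - g *ᵥ k) + Q • m) := by
        rw [e1, e3, mulVec_smul, smul_add, smul_sub, smul_comm Q (M : ℤ)]
        abel
      rw [a2, Kz.rz_sub, Kz.rz_zsmul, rz_mulVec] at a1
      have a3 := map_sub_le_add q ((D * g + Q • X).map (Int.cast : ℤ → ℝ) *ᵥ rz w)
        (((M : ℤ) : ℝ) • rz (D *ᵥ (b - g *ᵥ k) + Q • m))
      have a4 := h2 (rz w)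
      rw [← rz_mulVec g, e3, Kz.rz_zsmul, map_smul_eq_mul, Int.cast_natCast,
        Real.norm_natCast] at a4
      rw [map_smul_eq_mul, Int.cast_natCast, Real.norm_natCast] at a3
      have a5 : 2 * (Fintype.card κ + 1) * r / ρ * (M * p (rz (b - g *ᵥ k))) ≤
          (Fintype.card κ + 1) * r := by
        rw [div_mul_eq_mul_div, div_le_iff₀ hρ]
        have : 2 * (M * p (rz (b - g *ᵥ k))) ≤ ρ := by nlinarith
        nlinarith [mul_le_mul_of_nonneg_left this (by positivity : 0 ≤ (Fintype.card κ + 1) * r)]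
      rw [Int.cast_natCast] at a1
      nlinarith
    refine ⟨(D * g + Q • X) *ᵥ k + (D *ᵥ (b - g *ᵥ k) + Q • m), ?_, X *ᵥ k + m, ?_⟩
    · rw [e2, mulVec_add, mulVec_smul, smul_add, e1 w, e3, mulVec_smul, sub_eq_zero.1 h5, smul_add,
        smul_comm Q (M : ℤ)]
    · rw [e1, mulVec_sub, smul_add]
      abel
  choose x hx m hm using h3
  refine ⟨(Matrix.of fun j => x (Pi.single j 1))ᵀ, fun i j => ⟨m (Pi.single j 1) i, ?_⟩,
    fun v => ?_⟩
  · simp [hm (Pi.single j 1)]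
  · have e5 : (M : ℤ) • (Matrix.of fun j => x (Pi.single j 1))ᵀ = (D * g + Q • X) * A := by
      ext i j
      have := congrFun (hx (Pi.single j 1)) i
      rw [mulVec_mulVec] at this
      simpa using this
    have e6 : ((Matrix.of fun j => x (Pi.single j 1))ᵀ).map (Int.cast : ℤ → ℝ) *ᵥ v =
        (D * g + Q • X).map (Int.cast : ℤ → ℝ) *ᵥ A.map (Int.cast : ℤ → ℝ) *ᵥ ((M : ℝ)⁻¹ • v) := by
      rw [mulVec_mulVec, ← Matrix.map_mul_intCast, ← e5]
      funext i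
      simp only [mulVec, dotProduct, map_apply, Matrix.smul_apply, Pi.smul_apply, smul_eq_mul]
      refine Finset.sum_congr rfl fun j _ => ?_
      push_cast
      field_simp
    have := h2 (A.map (Int.cast : ℤ → ℝ) *ᵥ ((M : ℝ)⁻¹ • v))
    rwa [map_map ga, smul_smul, mul_inv_cancel₀ (by linarith), one_smul, ← e6] at this

end lift

variable {ι : Type} [Fintype ι] [DecidableEq ι] {τ : Matrix ι ι ℂ}

theorem exists_seminorm (hτ : InH τ) :
    ∃ p : Seminorm ℝ (ι ⊕ ι → ℝ), ∀ v, p v ^ 2 = qf τ v := by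
  obtain ⟨g, -, e⟩ := FP.Pm_fac hτ
  refine ⟨(normSeminorm ℝ (EuclideanSpace ℝ (ι ⊕ ι))).comp
    ((WithLp.linearEquiv 2 ℝ (ι ⊕ ι → ℝ)).symm.toLinearMap ∘ₗ mulVecLin g), fun v => ?_⟩
  rw [qf, e, ← mulVec_mulVec, dotProduct_mulVec, vecMul_transpose, Seminorm.comp_apply,
    coe_normSeminorm, EuclideanSpace.real_norm_sq_eq]
  simp [dotProduct, sq]

end MF.An
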