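import Pool.Agent.Lib.MP_33b3f9_ag.MF.An.Defs
import Pool.Agent.Lib.MP_33b3f9_ag.M4.ThShift

/-!
Fourier inversion and the theta function along a complex line.
-/

set_option autoImplicit false

namespace MF.An

open Complex Matrix M4 MeasureTheory

section fourier

variable {κ : Type} [Fintype κ]

theorem norm_ee (w : ℂ) : ‖ee w‖ = Real.exp (-(2 * Real.pi * w.im)) := by
  rw [ee, Complex.norm_exp]
  congr 1
  simp

/-- Fourier inversion for continuous periodic functions. -/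
theorem hasSum_coef {F : (κ → ℂ) → ℂ} (hF : Continuous F)
    (hp : ∀ (k : κ → ℤ) z, F (z + cz k) = F z) (hs : Summable fun n => coef n F) (t : κ → ℝ) :
    HasSum (fun n => coef n F * ee (cz n ⬝ᵥ rc t)) (F (rc t)) := by
  have hq : IsOpenQuotientMap (Pi.map fun (_ : κ) (x : ℝ) => (x : UnitAddCircle)) :=
    IsOpenQuotientMap.piMap fun _ => QuotientAddGroup.isOpenQuotientMap_mk
  let G : UnitAddTorus κ → ℂ := fun x => F (rc fun i => (x i).out)
  have hG : ∀ t : κ → ℝ, G (fun i => (t i : UnitAddCircle)) = F (rc t) := fun t => by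
    choose g hg using fun i => QuotientAddGroup.mk_out_eq_add (AddSubgroup.zmultiples (1 : ℝ)) (t i)
    choose k hk using fun i => AddSubgroup.mem_zmultiples_iff.1 (g i).2
    rw [← hp k (rc t)]
    refine congrArg F (funext fun i => ?_)
    simp only [rc, cz, hg, ← hk, Pi.add_apply]
    simp
  have hc : Continuous G := hq.isQuotientMap.continuous_iff.2 <| by
    refine Continuous.congr (hF.comp ?_) fun t => (hG t).symm
    unfold rc
    fun_prop
  have h0 : UnitAddTorus.mFourierCoeff (⟨G, hc⟩ : C(UnitAddTorus κ, ℂ)) = fun n => coef n F :=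
    funext fun n => (thfou_coef hG n).symm
  have h1 := UnitAddTorus.hasSum_mFourier_series_apply_of_summable (f := ⟨G, hc⟩)
    (h0 ▸ hs) fun i => (t i : UnitAddCircle)
  simp only [h0, thfou_mFourier, smul_eq_mul] at h1
  exact (hG t) ▸ h1

theorem vol_cube : volume (Set.pi Set.univ fun _ : κ => Set.Ioc (0 : ℝ) 1) = 1 := by
  simp [volume_pi_pi]

theorem norm_coef_le {F : (κ → ℂ) → ℂ} {M : ℝ} (h : ∀ t, ‖F (rc t)‖ ≤ M) (n : κ → ℤ) :
    ‖coef n F‖ ≤ M := by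
  have h1 := norm_setIntegral_le_of_norm_le_const (μ := volume)
    (s := Set.pi Set.univ fun _ : κ => Set.Ioc (0 : ℝ) 1)
    (f := fun t => ee (-(cz n ⬝ᵥ rc t)) * F (rc t)) (C := M) (by rw [vol_cube]; simp)
    fun t _ => by
      rw [norm_mul, show -(cz n ⬝ᵥ rc t) = ((-(rz n ⬝ᵥ t) : ℝ) : ℂ) by
        simp [cz, rc, rz, dotProduct], norm_ee_real, one_mul]
      exact h t
  rw [Measure.real, vol_cube] at h1
  simpa [coef] using h1

end fourier

variable {ι : Type} [Fintype ι] [DecidableEq ι] {τ : Matrix ι ι ℂ}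

/-- The theta function with characteristic `y` on the complex line through `u`. -/
noncomputable def Gl (τ : Matrix ι ι ℂ) (y u : ι ⊕ ι → ℝ) (s : ℂ) : ℂ :=
  ee (s ^ 2 * (fa u ⬝ᵥ per τ u) / 2 - fa y ⬝ᵥ fb y / 2) * thc τ y (s • per τ u)

omit [DecidableEq ι] in
theorem differentiable_Gl (hτ : InH τ) (y u : ι ⊕ ι → ℝ) : Differentiable ℂ (Gl τ y u) := by
  refine (differentiable_ee.comp (by fun_prop)).mul ((differentiable_thc hτ y).comp ?_)
  fun_prop

omit [DecidableEq ι] in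
theorem Gl_zero (τ : Matrix ι ι ℂ) (y u : ι ⊕ ι → ℝ) : Gl τ y u 0 = Th τ y := by
  rw [Gl, Th, zero_smul, neg_div]
  simp

theorem E_cst (τ : Matrix ι ι ℂ) (u : ι ⊕ ι → ℝ) : E u (cst τ *ᵥ u) = -qf τ u := by
  rw [qf_eq, E_swap]

theorem Gl_eq (hτ : InH τ) (y u : ι ⊕ ι → ℝ) (t r : ℝ) : Gl τ y u (t + r * I) =
    ee (-((t + r * I) * r * qf τ u) / 2) * U 1 y (Th τ) (t • u + r • cst τ *ᵥ u) := by
  have h1 : per τ (t • u + r • cst τ *ᵥ u) = ((t : ℂ) + r * I) • per τ u := by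
    rw [per_add, per_smul, per_smul, per_cst hτ, smul_smul, add_smul]
  have h2 := fa_per_sub hτ.1 u (cst τ *ᵥ u)
  rw [per_cst hτ, E_cst, dotProduct_smul, smul_eq_mul] at h2
  rw [U_Th hτ.1, h1, Gl, ← mul_assoc, ← ee_add, fa_add, fa_smul, fa_smul, dotProduct_smul,
    add_dotProduct, smul_dotProduct, smul_dotProduct]
  congr 2
  simp only [smul_eq_mul]
  push_cast at h2
  linear_combination (((t : ℂ) + r * I) * r / 2) * h2

omit [DecidableEq ι] in
theorem Th_add_rz (τ : Matrix ι ι ℂ) (w : ι ⊕ ι → ℝ) (n : ι ⊕ ι → ℤ) :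
    Th τ (w + rz n) = chi n * ee (-(E (rz n) w) / 2) * Th τ w := by
  have h := congrFun (U_rz_Th τ n) w
  rw [U_apply, Pi.smul_apply, smul_eq_mul] at h
  rw [mul_right_comm, ← h, mul_right_comm, ← ee_add]
  simp [neg_div]

omit [DecidableEq ι] in
theorem U_Th_add_rz (τ : Matrix ι ι ℂ) (y x : ι ⊕ ι → ℝ) (n : ι ⊕ ι → ℤ) :
    U 1 y (Th τ) (x + rz n) =
      chi n * ee (E y (rz n)) * ee (-(E (rz n) x) / 2) * U 1 y (Th τ) x := by
  rw [U_apply, U_apply, add_right_comm, Th_add_rz, E_add_right, E_add_right, E_swap y (rz n)]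
  have e : ee (((1 : ℝ) : ℂ) * ((E y x + E y (rz n) : ℝ) : ℂ) / 2) *
      ee (-((E (rz n) x + -E y (rz n) : ℝ) : ℂ) / 2) =
      ee (E y (rz n)) * ee (-(E (rz n) x) / 2) * ee (((1 : ℝ) : ℂ) * E y x / 2) := by
    rw [← ee_add, ← ee_add, ← ee_add]
    congr 1
    push_cast
    ring
  linear_combination (chi n * Th τ (x + y)) * e

theorem Gl_add_one (hτ : InH τ) (y : ι ⊕ ι → ℝ) (n : ι ⊕ ι → ℤ) (s : ℂ) :
    Gl τ y (rz n) (s + 1) = chi n * ee (E y (rz n)) * Gl τ y (rz n) s := by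
  obtain ⟨t, r, rfl⟩ : ∃ t r : ℝ, s = t + r * I := ⟨s.re, s.im, (re_add_im s).symm⟩
  have e1 : (t : ℂ) + r * I + 1 = ((t + 1 : ℝ) : ℂ) + r * I := by push_cast; ring
  have e2 : (t + 1) • rz n + r • cst τ *ᵥ rz n = t • rz n + r • cst τ *ᵥ rz n + rz n := by
    rw [add_smul, one_smul, add_right_comm]
  have e3 : E (rz n) (t • rz n + r • cst τ *ᵥ rz n) = -(r * qf τ (rz n)) := by
    rw [E_add_right, E_smul_right, E_smul_right, E_cst, E_self]
    ring
  rw [e1, Gl_eq hτ, Gl_eq hτ, e2, U_Th_add_rz, e3]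
  have e : ee (-((((t + 1 : ℝ) : ℂ) + r * I) * r * qf τ (rz n)) / 2) *
      ee (-((-(r * qf τ (rz n)) : ℝ) : ℂ) / 2) = ee (-((t + r * I) * r * qf τ (rz n)) / 2) := by
    rw [← ee_add]
    congr 1
    push_cast
    ring
  linear_combination (chi n * ee (E y (rz n)) * U 1 y (Th τ) (t • rz n + r • cst τ *ᵥ rz n)) * e

theorem norm_Gl (hτ : InH τ) (y u : ι ⊕ ι → ℝ) (t r : ℝ) : ‖Gl τ y u (t + r * I)‖ =
    Real.exp (Real.pi * r ^ 2 * qf τ u) * ‖Th τ (t • u + r • cst τ *ᵥ u + y)‖ := by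
  rw [Gl_eq hτ, norm_mul, norm_U, norm_ee]
  congr 2
  simp
  ring

end MF.An
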