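import Pool.Agent.Lib.MP_33b3f9_ag.MF.An.Line
import Pool.Agent.Lib.MP_33b3f9_ag.M4.ModBd

/-!
The Fourier expansion of the product of a translate of theta with the conjugate of theta.
-/

set_option autoImplicit false

namespace MF.An

open Complex Matrix M4 MeasureTheory ComplexConjugate

theorem diff_cube {κ : Type} [Fintype κ] {f : (κ → ℝ) → ℂ → ℂ}
    (hc : Continuous fun p : (κ → ℝ) × ℂ => f p.1 p.2) (hd : ∀ t, Differentiable ℂ (f t)) :
    Differentiable ℂ fun s : ℂ =>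
      ∫ t in Set.pi Set.univ fun _ : κ => Set.Ioc (0 : ℝ) 1, f t s := by
  intro s₀
  have hsub : (Set.pi Set.univ fun _ : κ => Set.Ioc (0 : ℝ) 1) ⊆ Set.Icc 0 1 := fun t ht =>
    ⟨fun i => (ht i trivial).1.le, fun i => (ht i trivial).2⟩
  have hK : IsCompact (Set.Icc (0 : κ → ℝ) 1 ×ˢ Metric.closedBall s₀ 2) :=
    isCompact_Icc.prod (isCompact_closedBall _ _)
  obtain ⟨M, hM⟩ := hK.exists_bound_of_continuousOn hc.continuousOn
  have hct : ∀ s : ℂ, Continuous fun t : κ → ℝ => f t s := fun s =>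
    hc.comp (continuous_id.prodMk continuous_const)
  have hms : MeasurableSet (Set.pi Set.univ fun _ : κ => Set.Ioc (0 : ℝ) 1) :=
    MeasurableSet.univ_pi fun _ => measurableSet_Ioc
  refine (hasDerivAt_integral_of_dominated_loc_of_deriv_le
    (μ := volume.restrict (Set.pi Set.univ fun _ : κ => Set.Ioc (0 : ℝ) 1))
    (F := fun s t => f t s) (F' := fun s t => deriv (f t) s) (bound := fun _ => M / 1)
    (Metric.ball_mem_nhds s₀ one_pos) ?_ ?_ ?_ ?_ ?_ ?_).2.differentiableAt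
  · exact Filter.Eventually.of_forall fun s => (hct s).aestronglyMeasurable
  · exact ((hct s₀).continuousOn.integrableOn_compact isCompact_Icc).mono_set hsub
  · have := measurable_deriv_with_param (𝕜 := ℂ) (f := f) hc
    exact (this.comp (measurable_id.prodMk measurable_const)).aestronglyMeasurable
  · refine (ae_restrict_iff' hms).2 (Filter.Eventually.of_forall fun t ht s hs => ?_)
    refine norm_deriv_le_of_forall_mem_sphere_norm_le one_pos (hd t).diffContOnCl fun z hz => ?_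
    refine hM (t, z) ⟨hsub ht, ?_⟩
    have h1 := dist_triangle z s s₀
    rw [Metric.mem_sphere] at hz
    rw [Metric.mem_ball] at hs
    rw [Metric.mem_closedBall]
    linarith
  · exact (continuous_const.continuousOn.integrableOn_compact isCompact_Icc).mono_set hsub
  · exact Filter.Eventually.of_forall fun t s _ => (hd t s).hasDerivAt

theorem const_of_real {f : ℂ → ℂ} (hf : Differentiable ℂ f) (h : ∀ s, (f s).im = 0) (s : ℂ) :
    f s = f 0 := by
  have h1 : ∀ s, 1 ≤ ‖f s + I‖ := fun s => by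
    have := abs_im_le_norm (f s + I)
    simpa [h s] using this
  have h2 : Differentiable ℂ fun s => (f s + I)⁻¹ :=
    (hf.add_const I).inv fun s h0 => by
      have := h1 s
      rw [h0, norm_zero] at this
      linarith
  have h3 := h2.apply_eq_apply_of_bounded (isBounded_iff_forall_norm_le.2 ⟨1, by
    rintro _ ⟨s, rfl⟩
    rw [norm_inv]
    exact inv_le_one_of_one_le₀ (h1 s)⟩) s 0
  exact add_right_cancel (inv_injective h3)

theorem const_of_conj {f : ℂ → ℂ} (hf : Differentiable ℂ f) (h : ∀ s, conj (f s) = f (-s))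
    (s : ℂ) : f s = f 0 := by
  have hn : Differentiable ℂ fun s => f (-s) := hf.comp differentiable_neg
  have h1 := const_of_real (hf.add hn) (fun s => by simp [← h]) s
  have h2 := const_of_real ((hf.sub hn).const_mul I) (fun s => by simp [← h]) s
  simp only [Pi.add_apply, Pi.sub_apply, neg_zero, sub_self, mul_zero, mul_eq_zero, I_ne_zero,
    false_or] at h1 h2
  linear_combination (h1 + h2) / 2

variable {ι : Type} [Fintype ι] [DecidableEq ι] {τ : Matrix ι ι ℂ}

theorem cst_cst (hτ : InH τ) (u : ι ⊕ ι → ℝ) : cst τ *ᵥ cst τ *ᵥ u = -u := by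
  refine (per_bijective hτ).1 ?_
  rw [per_cst hτ, per_cst hτ, smul_smul, I_mul_I, per_neg, neg_one_smul]

theorem qf_line (hτ : InH τ) (u : ι ⊕ ι → ℝ) (t r : ℝ) :
    qf τ (t • u + r • cst τ *ᵥ u) = (t ^ 2 + r ^ 2) * qf τ u := by
  rw [qf_eq, mulVec_add, mulVec_smul, mulVec_smul, cst_cst hτ]
  simp only [E_add_left, E_add_right, E_smul_left, E_smul_right, E_neg_left, E_self, E_cst,
    ← qf_eq]
  ring

theorem summable_qf (hτ : InH τ) {c : ℝ} (hc : 0 < c) (z : ι ⊕ ι → ℝ) :
    Summable fun m : ι ⊕ ι → ℤ => Real.exp (-c * qf τ (z + rz m)) := by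
  obtain ⟨d, hd, h⟩ := qf_low hτ
  have hpi := Real.pi_pos
  obtain ⟨C, hC⟩ := Mo.gauss_bound (ι ⊕ ι) (d := c * d / Real.pi) (by positivity)
  refine Summable.of_nonneg_of_le (fun _ => (Real.exp_pos _).le) (fun m => ?_) (hC z).1
  have h1 := mul_le_mul_of_nonneg_left (h (z + rz m)) hc.le
  have e : Real.pi * (c * d / Real.pi * ∑ i, ((m i : ℝ) + z i) ^ 2) =
      c * (d * ∑ i, (z + rz m) i ^ 2) := by
    simp only [rz, Pi.add_apply, add_comm (z _)]
    field_simp
  rw [Real.exp_le_exp, e]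
  linarith

/-- The kernel. -/
noncomputable def Kz (τ : Matrix ι ι ℂ) (z y : ι ⊕ ι → ℝ) : ℂ := U 1 y (Th τ) z * conj (Th τ y)

/-- Its mean. -/
noncomputable def a0 (τ : Matrix ι ι ℂ) (z : ι ⊕ ι → ℝ) : ℂ :=
  ∫ y in Set.pi Set.univ fun _ : ι ⊕ ι => Set.Ioc (0 : ℝ) 1, Kz τ z y

omit [DecidableEq ι] in
theorem conj_ee (t : ℝ) : conj (ee t) = ee (-t) := by
  rw [ee, ee, ← exp_conj]
  congr 1
  simp [map_ofNat]

omit [DecidableEq ι] in
theorem Kz_per (τ : Matrix ι ι ℂ) (z : ι ⊕ ι → ℝ) (n : ι ⊕ ι → ℤ) (y : ι ⊕ ι → ℝ) :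
    Kz τ z (y + rz n) = Kz τ z y := by
  have e : -(E (rz n) y : ℂ) / 2 = E y (rz n) / 2 := by rw [E_swap y (rz n)]; push_cast; ring
  have h : ‖chi n * ee (E y (rz n) / 2)‖ = 1 := by
    rw [norm_mul, norm_chi, show (E y (rz n) / 2 : ℂ) = ((E y (rz n) / 2 : ℝ) : ℂ) by simp,
      norm_ee_real, one_mul]
  have h1 := Complex.mul_conj' (chi n * ee (E y (rz n) / 2))
  rw [h] at h1
  rw [Kz, Kz, U_add_rz_Th, Th_add_rz, e, Pi.smul_apply, smul_eq_mul, map_mul _ _ (Th τ y)]
  push_cast at h1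
  linear_combination (U 1 y (Th τ) z * conj (Th τ y)) * h1

omit [DecidableEq ι] in
theorem a0_neg (τ : Matrix ι ι ℂ) (x : ι ⊕ ι → ℝ) : conj (a0 τ x) = a0 τ (-x) := by
  rw [a0, a0, ← integral_conj, ← shift_real (Kz_per τ (-x)) x]
  refine integral_congr_ae (Filter.Eventually.of_forall fun y => ?_)
  have e1 : (((1 : ℝ) : ℂ) * E y x / 2) = ((E y x / 2 : ℝ) : ℂ) := by push_cast; ring
  have e2 : (((1 : ℝ) : ℂ) * E (y + x) (-x) / 2) = -((E y x / 2 : ℝ) : ℂ) := by
    rw [E_neg_right, E_add_left, E_self]; push_cast; ring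
  beta_reduce
  rw [Kz, Kz, U_apply, U_apply, e1, e2, map_mul, map_mul, conj_ee, conj_conj,
    show -x + (y + x) = y by abel, add_comm x y]
  ring

theorem a0_eq (hτ : InH τ) (u : ι ⊕ ι → ℝ) :
    a0 τ u = a0 τ 0 * Real.exp (-(Real.pi / 2) * qf τ u) := by
  have hT : Continuous (Th τ) := Hol.continuous (Th_mem_Hol hτ)
  let φ : ℂ → ℂ := fun s => ee (-(I * s ^ 2 * qf τ u) / 4) *
    ∫ y in Set.pi Set.univ fun _ : ι ⊕ ι => Set.Ioc (0 : ℝ) 1, Gl τ y u s * conj (Th τ y)
  have hφ : Differentiable ℂ φ := by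
    refine (differentiable_ee.comp (by fun_prop)).mul (diff_cube ?_ fun y =>
      (differentiable_Gl hτ y u).mul_const _)
    refine Continuous.mul (Continuous.mul (differentiable_ee.continuous.comp ?_) ?_)
      (continuous_conj.comp (hT.comp continuous_fst))
    · have h1 := continuous_fa (ι := ι)
      have h2 := continuous_fb (ι := ι)
      fun_prop
    · exact continuousOn_thc.comp_continuous
        (f := fun p : (ι ⊕ ι → ℝ) × ℂ => (fun i j => τ i j, p.1, p.2 • per τ u)) (by fun_prop)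
        fun p => ⟨hτ.posIm, trivial⟩
  have he : ∀ t r : ℝ, φ (t + r * I) = a0 τ (t • u + r • cst τ *ᵥ u) *
      Real.exp (Real.pi / 2 * ((t ^ 2 + r ^ 2) * qf τ u)) := fun t r => by
    simp only [φ, Gl_eq hτ, mul_assoc (ee _), integral_const_mul]
    rw [← mul_assoc, ← ee_add, mul_comm, a0]
    congr 1
    rw [ee, ofReal_exp]
    congr 1
    push_cast
    linear_combination (-(Real.pi : ℂ) * qf τ u * ((t + r * I) ^ 2 + r ^ 2) / 2) * I_mul_I
  have hc : ∀ s, conj (φ s) = φ (-s) := fun s => by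
    obtain ⟨t, r, rfl⟩ : ∃ t r : ℝ, s = t + r * I := ⟨s.re, s.im, (re_add_im s).symm⟩
    have e : -((t : ℂ) + r * I) = ((-t : ℝ) : ℂ) + ((-r : ℝ) : ℂ) * I := by push_cast; ring
    rw [e, he, he, map_mul, conj_ofReal, a0_neg, neg_add, ← neg_smul, ← neg_smul, neg_sq, neg_sq]
  have h1 := const_of_conj hφ hc 1
  have h2 := he 1 0
  have h3 := he 0 0
  simp only [ofReal_one, ofReal_zero, zero_mul, add_zero, one_smul, zero_smul, one_pow, ne_eq,
    OfNat.ofNat_ne_zero, not_false_eq_true, zero_pow, one_mul, mul_zero, Real.exp_zero,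
    mul_one] at h2 h3
  rw [← h3, ← h1, h2, mul_assoc, ← ofReal_mul, ← Real.exp_add]
  simp

/-- The rotation of the lattice that turns the symplectic form into the dot product. -/
def sw (ι : Type) : (ι ⊕ ι → ℤ) ≃ (ι ⊕ ι → ℤ) where
  toFun m := Sum.elim (fun i => -m (Sum.inr i)) fun i => m (Sum.inl i)
  invFun m := Sum.elim (fun i => m (Sum.inr i)) fun i => -m (Sum.inl i)
  left_inv m := by funext i; rcases i with i | i <;> simp
  right_inv m := by funext i; rcases i with i | i <;> simp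

omit [DecidableEq ι] in
theorem sw_dot (m : ι ⊕ ι → ℤ) (y : ι ⊕ ι → ℝ) : cz (sw ι m) ⬝ᵥ rc y = E (rz m) y := by
  simp [sw, cz, rc, rz, E, dotProduct, Finset.sum_sub_distrib]
  ring

theorem pz0 (hτ : InH τ) (z y : ι ⊕ ι → ℝ) : HasSum (fun m : ι ⊕ ι → ℤ =>
    a0 τ 0 * (chi m * ee (E (rz m) z / 2)) * Real.exp (-(Real.pi / 2) * qf τ (z + rz m)) *
      ee (E (rz m) y)) (Kz τ z y) := by
  have hT : Continuous (Th τ) := Hol.continuous (Th_mem_Hol hτ)
  let F : (ι ⊕ ι → ℂ) → ℂ := fun w => Kz τ z fun i => (w i).re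
  have hr : ∀ t, F (rc t) = Kz τ z t := fun t => by simp [F, rc]
  have hK : Continuous (Kz τ z) := by
    refine Continuous.mul (Continuous.mul (differentiable_ee.continuous.comp ?_)
      (hT.comp (by fun_prop))) (continuous_conj.comp hT)
    unfold E
    fun_prop
  have hF : Continuous F := hK.comp (by fun_prop)
  have hp : ∀ (k : ι ⊕ ι → ℤ) w, F (w + cz k) = F w := fun k w => by
    rw [← show Kz τ z ((fun i => (w i).re) + rz k) = F w from Kz_per τ z k _]
    refine congrArg (Kz τ z) (funext fun i => ?_)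
    simp [cz, rz]
  have hc : ∀ m, coef (sw ι m) F =
      a0 τ 0 * (chi m * ee (E (rz m) z / 2)) * Real.exp (-(Real.pi / 2) * qf τ (z + rz m)) := by
    intro m
    rw [mul_right_comm, ← a0_eq hτ, mul_comm, a0, ← integral_const_mul, coef]
    refine integral_congr_ae (Filter.Eventually.of_forall fun t => ?_)
    have e : ee (E (rz m) z / 2) * ee (-(E (rz m) z) / 2) = 1 := by
      rw [← ee_add, neg_div, add_neg_cancel, ee_zero]
    beta_reduce
    rw [hr, sw_dot, Kz, Kz, U_Th_add_rz, E_swap (rz m) t, ofReal_neg]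
    linear_combination (-(ee (-(E (rz m) t : ℂ)) * U 1 t (Th τ) z * conj (Th τ t))) *
      (chi m ^ 2 * e + chi_sq m)
  have hs : Summable fun n => coef n F := by
    refine (sw ι).summable_iff.1 (Summable.of_norm ?_)
    refine ((summable_qf hτ (c := Real.pi / 2) (by positivity) z).mul_left ‖a0 τ 0‖).congr
      fun m => ?_
    rw [Function.comp_apply, hc, norm_mul, norm_mul, norm_mul, norm_chi,
      show (E (rz m) z / 2 : ℂ) = ((E (rz m) z / 2 : ℝ) : ℂ) by simp, norm_ee_real, norm_real,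
      Real.norm_of_nonneg (Real.exp_pos _).le]
    ring
  have h := (sw ι).hasSum_iff.2 (hasSum_coef hF hp hs y)
  rw [hr] at h
  simpa only [Function.comp_def, hc, sw_dot] using h

theorem pz (hτ : InH τ) : ∃ κ : ℝ, 0 < κ ∧ ∀ z y : ι ⊕ ι → ℝ, HasSum (fun m : ι ⊕ ι → ℤ =>
    (κ : ℂ) * (chi m * ee (E (rz m) z / 2)) * Real.exp (-(Real.pi / 2) * qf τ (z + rz m)) *
      ee (E (rz m) y)) (ee (-(E z y) / 2) * Th τ (y + z) * conj (Th τ y)) := by
  have e : a0 τ 0 = ((∫ y in Set.pi Set.univ fun _ : ι ⊕ ι => Set.Ioc (0 : ℝ) 1,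
      ‖Th τ y‖ ^ 2 : ℝ) : ℂ) := by
    rw [a0, ← integral_complex_ofReal]
    refine integral_congr_ae (Filter.Eventually.of_forall fun y => ?_)
    beta_reduce
    rw [Kz, U_at_zero, Complex.mul_conj']
    simp
  refine ⟨∫ y in Set.pi Set.univ fun _ : ι ⊕ ι => Set.Ioc (0 : ℝ) 1, ‖Th τ y‖ ^ 2,
    lt_of_le_of_ne (integral_nonneg fun y => sq_nonneg ‖Th τ y‖) fun h => ?_, fun z y => ?_⟩
  · rw [← h, ofReal_zero] at e
    refine Th_ne_zero hτ (funext fun y => ?_)
    have h1 := pz0 hτ 0 y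
    simp only [e, zero_mul] at h1
    have h2 := h1.unique hasSum_zero
    rw [Kz, U_at_zero] at h2
    simpa using h2
  · have h := pz0 hτ z y
    rw [e, Kz, U_apply, E_swap z y, add_comm z y] at h
    simpa using h

end MF.An
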