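import Pool.Agent.Lib.MP_33b3f9_ag.MF.An.Line
import Pool.Agent.Lib.MP_33b3f9_ag.M4.ThInj
import Pool.Agent.Lib.MP_33b3f9_ag.M4.ModBd

/-!
A short lattice vector makes some nonzero theta constant small.
-/

set_option autoImplicit false

namespace MF.An

open Complex Matrix M4

/-- An entire function that changes sign under the unit translation and has Gaussian growth. -/
theorem anti_small : ∃ C : ℝ, 0 < C ∧ ∀ (G : ℂ → ℂ) (S q : ℝ), Differentiable ℂ G →
    (∀ s, G (s + 1) = -G s) → 0 < q → q ≤ 1 → 0 ≤ S →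
    (∀ t r : ℝ, ‖G (t + r * I)‖ ≤ Real.exp (Real.pi * r ^ 2 * q) * S) →
    ‖G 0‖ ≤ C * Real.exp (-(Real.pi / 8) / q) * S := by
  obtain ⟨C, hC⟩ := M4.Mo.gauss_bound Unit (d := 1 / 2) (by norm_num)
  obtain ⟨h1, h2⟩ := hC fun _ => 1 / 2
  refine ⟨max C 1, by positivity, fun G S q hG ha hq hq1 hS hb => ?_⟩
  have hp0 : Function.Periodic (fun s => G s * ee (-s / 2)) 1 := fun s => by
    have e : -(s + 1) / 2 = -s / 2 + ((-1 : ℤ) : ℂ) / 2 := by push_cast; ring
    simp only [ha, e, ee_add, ee_half_int]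
    simp
  let F : (Unit → ℂ) → ℂ := fun z => G (z ()) * ee (-z () / 2)
  have hF : Differentiable ℂ F :=
    (hG.comp (by fun_prop)).mul (differentiable_ee.comp (by fun_prop))
  have hp : ∀ (k : Unit → ℤ) z, F (z + cz k) = F z := fun k z => by
    have := hp0.int_mul (k ()) (z ())
    simpa [F, cz] using this
  have hc : ∀ n : Unit → ℤ, ‖coef n F‖ ≤ Real.exp (-(Real.pi / 8) / q) * S *
      Real.exp (-(Real.pi * (1 / 2 * ∑ i, ((n i : ℝ) + 1 / 2) ^ 2))) := by
    intro n
    obtain ⟨a, hA⟩ : ∃ a : ℝ, a = n () + 1 / 2 := ⟨_, rfl⟩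
    obtain ⟨r, hr⟩ : ∃ r : ℝ, r = -a / q := ⟨_, rfl⟩
    have k1 := coef_shift hF hp n fun _ => r * I
    have k2 := norm_coef_le (F := fun z => F (z + fun _ => r * I))
      (M := Real.exp (Real.pi * r ^ 2 * q) * S * Real.exp (Real.pi * r)) (fun t => by
        simp only [F, rc, Pi.add_apply]
        rw [norm_mul, norm_ee]
        refine mul_le_mul (hb _ _) (le_of_eq ?_) (by positivity) (by positivity)
        congr 1
        simp
        ring) n
    rw [k1, norm_mul, norm_ee] at k2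
    have e1 : (cz n ⬝ᵥ fun _ => (r : ℂ) * I).im = (a - 1 / 2) * r := by
      simp [cz, dotProduct, hA]
    rw [e1, Real.exp_neg, inv_mul_le_iff₀ (Real.exp_pos _)] at k2
    refine k2.trans ?_
    have e2 : ∑ i, ((n i : ℝ) + 1 / 2) ^ 2 = a ^ 2 := by simp [hA]
    have a4 : 1 / 4 ≤ a ^ 2 := by
      have : (0 : ℤ) ≤ n () * (n () + 1) := by
        rcases lt_or_ge (n ()) 0 with h | h
        · exact mul_nonneg_of_nonpos_of_nonpos h.le (by omega)
        · exact mul_nonneg h (by omega)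
      have h3 : (0 : ℝ) ≤ n () * (n () + 1) := by exact_mod_cast this
      rw [hA]
      nlinarith
    rw [e2, mul_right_comm (Real.exp _) S, mul_right_comm (Real.exp _) S, ← mul_assoc,
      ← Real.exp_add, ← Real.exp_add, ← Real.exp_add]
    refine mul_le_mul_of_nonneg_right (Real.exp_le_exp.2 ?_) hS
    have e3 : 2 * Real.pi * ((a - 1 / 2) * r) + (Real.pi * r ^ 2 * q + Real.pi * r) =
        -(Real.pi * (a ^ 2 / q)) := by
      rw [hr]
      field_simp
      ring
    have a5 : a ^ 2 ≤ a ^ 2 / q := le_div_self (sq_nonneg a) hq hq1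
    have a6 : 1 / 4 / q ≤ a ^ 2 / q := div_le_div_of_nonneg_right a4 hq.le
    have e4 : -(Real.pi / 8) / q = -(Real.pi * (1 / 4 / q / 2)) := by ring
    rw [e3, e4]
    nlinarith [Real.pi_pos]
  have hs := h1.mul_left (Real.exp (-(Real.pi / 8) / q) * S)
  have k3 := hasSum_coef hF.continuous hp (Summable.of_norm_bounded hs hc) 0
  have k4 := k3.norm_le_of_bounded hs.hasSum fun n => by
    have : rc (0 : Unit → ℝ) = 0 := by funext i; simp [rc]
    rw [this, dotProduct_zero, ee_zero, mul_one]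
    exact hc n
  have e5 : F (rc 0) = G 0 := by simp [F, rc]
  rw [e5, tsum_mul_left] at k4
  refine k4.trans ?_
  rw [mul_assoc (max C 1), mul_comm (max C 1)]
  exact mul_le_mul_of_nonneg_left (h2.trans (le_max_left _ _)) (by positivity)

variable {ι : Type} [Fintype ι] [DecidableEq ι] {τ : Matrix ι ι ℂ}

/-- For `u` not divisible by two, a theta constant with the odd sign does not vanish. -/
theorem exists_odd (hτ : InH τ) {u : ι ⊕ ι → ℤ} (hu : ¬ ∃ n, u = (2 : ℤ) • n) :
    ∃ ε, t2 τ ε ≠ 0 ∧ chi u * ee (E (hf (bz ε)) (rz u)) = -1 := by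
  by_contra hn
  push Not at hn
  obtain ⟨n, h⟩ := XX_inj hτ (x := hf u) (y := 0) (μ := 1) fun e => by
    have h1 := U_Th_add_rz τ (hf (bz e)) 0 u
    rw [zero_add, U_at_zero] at h1
    rw [XX_zero, XX, two_smul_hf, h1, one_mul]
    by_cases h0 : t2 τ e = 0
    · rw [t2] at h0
      rw [h0, mul_zero]
    · have h2 : (chi u * ee (E (hf (bz e)) (rz u))) ^ 2 = 1 := by
        rw [mul_pow, chi_sq, one_mul, ← ee_nat_mul, ← ee_E_rz (bz e) u, ← two_smul_hf (bz e),
          E_smul_left]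
        simp
      rcases sq_eq_one_iff.1 h2 with h3 | h3
      · rw [h3]
        simp
      · exact absurd h3 (hn e h0)
  refine hu ⟨n, funext fun i => ?_⟩
  have := congrFun h i
  simp only [sub_zero, hf, rz, Pi.smul_apply, smul_eq_mul] at this
  have h5 : (u i : ℝ) = 2 * n i := by linarith
  simpa using (by exact_mod_cast h5 : u i = 2 * n i)

theorem short (ι : Type) [Fintype ι] [DecidableEq ι] : ∃ c C : ℝ, 0 < c ∧ 0 < C ∧
    ∀ τ : Matrix ι ι ℂ, InH τ → ∀ u : ι ⊕ ι → ℤ, u ≠ 0 → ∃ ε, t2 τ ε ≠ 0 ∧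
      ‖t2 τ ε‖ ≤ C * Real.exp (-c / qf τ (rz u)) * ‖t2 τ‖ := by
  obtain ⟨C, hC, H⟩ := anti_small
  have hpi := Real.pi_pos
  refine ⟨Real.pi / 8, C * 2 ^ Fintype.card ι + Real.exp (Real.pi / 8), by positivity,
    by positivity, fun τ hτ u hu => ?_⟩
  have hrz : ∀ u : ι ⊕ ι → ℤ, u ≠ 0 → 0 < qf τ (rz u) := fun u hu => qf_pos hτ fun h => hu (by
    funext i
    have := congrFun h i
    simpa [rz] using this)
  induction hN : ∑ i, (u i).natAbs using Nat.strong_induction_on generalizing u with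
  | _ N ih =>
  have hq := hrz u hu
  by_cases h2 : ∃ n, u = (2 : ℤ) • n
  · obtain ⟨n, rfl⟩ := h2
    have hn : n ≠ 0 := fun h => hu (by rw [h, smul_zero])
    obtain ⟨i, hi⟩ := Function.ne_iff.1 hn
    have hlt : ∑ i, (n i).natAbs < N := by
      rw [← hN]
      refine Finset.sum_lt_sum (fun j _ => ?_) ⟨i, Finset.mem_univ _, ?_⟩
      · simp only [Pi.smul_apply, smul_eq_mul]
        omega
      · simp only [Pi.smul_apply, smul_eq_mul, Pi.zero_apply] at hi ⊢
        omega
    obtain ⟨ε, h3, h4⟩ := ih _ hlt n hn rfl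
    refine ⟨ε, h3, h4.trans ?_⟩
    have hq' := hrz n hn
    have h5 : qf τ (rz n) ≤ qf τ (rz ((2 : ℤ) • n)) := by
      rw [rz_smul, qf_smul]
      push_cast
      linarith
    have h6 := div_le_div_of_nonneg_left (by positivity : 0 ≤ Real.pi / 8) hq' h5
    have h7 : Real.exp (-(Real.pi / 8) / qf τ (rz n)) ≤
        Real.exp (-(Real.pi / 8) / qf τ (rz ((2 : ℤ) • n))) := by
      rw [Real.exp_le_exp, neg_div, neg_div]
      linarith
    gcongr
  · obtain ⟨ε, h3, h4⟩ := exists_odd hτ h2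
    refine ⟨ε, h3, ?_⟩
    have hE := Real.exp_pos (-(Real.pi / 8) / qf τ (rz u))
    rcases le_total (qf τ (rz u)) 1 with h5 | h5
    · have h6 := H (Gl τ (hf (bz ε)) (rz u)) (2 ^ Fintype.card ι * ‖t2 τ‖) _
        (differentiable_Gl hτ _ _) (fun s => by rw [Gl_add_one hτ, h4, neg_one_mul]) hq h5
        (by positivity) fun t r => by
          rw [norm_Gl hτ]
          exact mul_le_mul_of_nonneg_left (norm_Th_le_t2 hτ _) (Real.exp_pos _).le
      rw [Gl_zero] at h6
      refine h6.trans ?_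
      have : 0 ≤ Real.exp (Real.pi / 8) * Real.exp (-(Real.pi / 8) / qf τ (rz u)) * ‖t2 τ‖ := by
        positivity
      nlinarith
    · have h6 : 1 ≤ Real.exp (Real.pi / 8) * Real.exp (-(Real.pi / 8) / qf τ (rz u)) := by
        rw [← Real.exp_add, Real.one_le_exp_iff, neg_div]
        linarith [div_le_self (by positivity : 0 ≤ Real.pi / 8) h5]
      have h7 := mul_le_mul_of_nonneg_right h6 (norm_nonneg (t2 τ))
      have : 0 ≤ C * 2 ^ Fintype.card ι * Real.exp (-(Real.pi / 8) / qf τ (rz u)) * ‖t2 τ‖ := by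
        positivity
      nlinarith [norm_le_pi_norm (t2 τ) ε]

end MF.An
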