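import Pool.Agent.Lib.MP_33b3f9_ag.MF.An.Corr
import Pool.Agent.Lib.MP_33b3f9_ag.MF.An.Lat

/-!
Bounds for the Gaussian sums, and the transfer of short vectors.
-/

set_option autoImplicit false

namespace MF.An

open Complex Matrix M4 ComplexConjugate

theorem near_sum {α : Type} [Fintype α] {f g w : α → ℂ} (hw : ∀ i, ‖w i‖ = 1) (e : α ≃ α)
    (f0 : 0 < ∑ i, ‖f i‖ ^ 2) (g0 : 0 < ∑ i, ‖g i‖ ^ 2)
    (h1 : (1 - 1 / 64) * ((∑ i, ‖f i‖ ^ 2) * ∑ i, ‖g i‖ ^ 2) ≤ ‖∑ i, f i * conj (g i)‖ ^ 2)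
    (h2 : 3 / 4 * ∑ i, ‖f i‖ ^ 2 ≤ (∑ i, w i * f (e i) * conj (f i)).re) :
    (∑ i, ‖g i‖ ^ 2) / 2 ≤ (∑ i, w i * g (e i) * conj (g i)).re := by
  have n1 : ∀ f : α → ℂ, ‖(WithLp.toLp 2 f : EuclideanSpace ℂ α)‖ ^ 2 = ∑ i, ‖f i‖ ^ 2 :=
    fun f => EuclideanSpace.norm_sq_eq _
  have n2 : ∀ f : α → ℂ, ‖(WithLp.toLp 2 fun i => w i * f (e i) : EuclideanSpace ℂ α)‖ =
      ‖(WithLp.toLp 2 f : EuclideanSpace ℂ α)‖ := fun f => by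
    rw [← sq_eq_sq₀ (norm_nonneg _) (norm_nonneg _), n1, n1, ← e.sum_comp fun i => ‖f i‖ ^ 2]
    simp [hw]
  have n3 : ∀ f g : α → ℂ, inner ℂ (WithLp.toLp 2 g : EuclideanSpace ℂ α) (WithLp.toLp 2 f) =
      ∑ i, f i * conj (g i) := fun f g => EuclideanSpace.inner_toLp_toLp _ _
  have n4 : ∀ f : α → ℂ, 0 < ∑ i, ‖f i‖ ^ 2 → 0 < ‖(WithLp.toLp 2 f : EuclideanSpace ℂ α)‖ :=
    fun f h => (norm_nonneg _).lt_of_ne fun h0 => by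
      rw [← n1, ← h0] at h
      simp at h
  have := near_corr (n2 f) (n2 g) (by
    rw [n3, n3, ← e.sum_comp fun i => f i * conj (g i)]
    refine Finset.sum_congr rfl fun i _ => ?_
    rw [map_mul, mul_mul_mul_comm, Complex.mul_conj', hw]
    simp) (n4 f f0) (n4 g g0) (by rwa [n1, n1, n3, mul_assoc]) (by rwa [n1, n3])
  rwa [n1, n3] at this

variable {ι : Type} [Fintype ι] [DecidableEq ι] {τ σ : Matrix ι ι ℂ}

/-- The lattice of `σ` is squeezed between two multiples of a standard lattice. -/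
structure Lt (B : ℝ) (σ : Matrix ι ι ℂ) (g A : Matrix (ι ⊕ ι) (ι ⊕ ι) ℤ) (M : ℕ) : Prop where
  inH : InH σ
  pos : 1 ≤ M
  ga : g * A = (M : ℤ) • (1 : Matrix (ι ⊕ ι) (ι ⊕ ι) ℤ)
  ag : A * g = (M : ℤ) • (1 : Matrix (ι ⊕ ι) (ι ⊕ ι) ℤ)
  up : ∀ w : ι ⊕ ι → ℝ, (∀ i, |w i| ≤ 1) → qf σ (g.map (Int.cast : ℤ → ℝ) *ᵥ w) ≤ B * M
  low : ∀ v, ∑ i, (A.map (Int.cast : ℤ → ℝ) *ᵥ v) i ^ 2 ≤ B * M * qf σ v

theorem exists_Lt (hτ : InH τ) : ∃ B : ℝ, 1 ≤ B ∧ ∀ (g : Matrix (ι ⊕ ι) (ι ⊕ ι) ℤ) (M : ℕ),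
    1 ≤ M → Sim (g.map (Int.cast : ℤ → ℝ)) M →
      Lt B (act (g.map (Int.cast : ℤ → ℝ)) τ) g (Kz.adj g) M := by
  obtain ⟨d, hd, h⟩ := qf_low hτ
  have s0 : 0 ≤ ∑ a, ∑ b, |FP.Pm τ a b| := by positivity
  have d0 : 0 < d⁻¹ := inv_pos.2 hd
  refine ⟨1 + d⁻¹ + ∑ a, ∑ b, |FP.Pm τ a b|, by linarith, fun g M hM hg => ?_⟩
  have M1 : (1 : ℝ) ≤ M := by exact_mod_cast hM
  have hs : Kz.SimR g (M : ℤ) := Kz.simR_of_sim (by exact_mod_cast hg)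
  have ga := hs.mul_adj (by omega)
  refine ⟨inH_act hg (by linarith) hτ, hM, ga, hs.adj_mul, fun w hw => ?_, fun v => ?_⟩
  · rw [qf_act hg (by linarith) hτ, mul_comm]
    refine mul_le_mul_of_nonneg_right (le_add_of_nonneg_of_le (by linarith) ?_) (by linarith)
    rw [qf, ths_form]
    refine Finset.sum_le_sum fun a _ => Finset.sum_le_sum fun b _ => (le_abs_self _).trans ?_
    rw [abs_mul, abs_mul, mul_assoc]
    exact mul_le_of_le_one_right (abs_nonneg _) (mul_le_one₀ (hw a) (abs_nonneg _) (hw b))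
  · have h1 := qf_act hg (by linarith) hτ ((Kz.adj g).map (Int.cast : ℤ → ℝ) *ᵥ v)
    rw [map_map ga, qf_smul, sq, mul_assoc] at h1
    have h2 := h ((Kz.adj g).map (Int.cast : ℤ → ℝ) *ᵥ v)
    rw [← mul_left_cancel₀ (by linarith) h1, ← le_inv_mul_iff₀ hd] at h2
    rw [mul_assoc]
    exact h2.trans (mul_le_mul_of_nonneg_right (by linarith)
      (mul_nonneg (by linarith) (qf_nonneg (inH_act hg (by linarith) hτ) v)))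

variable {B : ℝ} {g A : Matrix (ι ⊕ ι) (ι ⊕ ι) ℤ} {M : ℕ}

theorem Lt.inj (h : Lt B σ g A M) : Function.Injective fun m : ι ⊕ ι → ℤ => A *ᵥ m := by
  intro a b hab
  have := congrArg (g *ᵥ ·) hab
  simp only [mulVec_mulVec, h.ga, smul_mulVec, one_mulVec] at this
  exact smul_right_injective _ (by have := h.pos; omega) this

theorem Lt.one_le (h : Lt B σ g A M) {m : ι ⊕ ι → ℤ} (hm : m ≠ 0) : 1 ≤ B * M * qf σ (rz m) := by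
  refine le_trans ?_ (h.low _)
  obtain ⟨i, hi⟩ : ∃ i, (A *ᵥ m) i ≠ 0 :=
    Function.ne_iff.1 fun h0 : A *ᵥ m = 0 => hm (h.inj (h0.trans (mulVec_zero A).symm))
  rw [← rz_mulVec]
  refine le_trans ?_
    (Finset.single_le_sum (fun j _ => sq_nonneg (rz (A *ᵥ m) j)) (Finset.mem_univ i))
  have : 1 ≤ (A *ᵥ m) i ^ 2 := (one_le_sq_iff_one_le_abs _).2 (Int.one_le_abs hi)
  rw [rz]
  exact_mod_cast this

theorem summable_tht (hσ : InH σ) {N : ℝ} (hN : N ≠ 0) (x : ι ⊕ ι → ℝ) :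
    Summable fun m : ι ⊕ ι → ℤ => Real.exp (-(2 * Real.pi) * qf σ (x + N • rz m)) := by
  refine (summable_qf hσ (c := 2 * Real.pi * N ^ 2) (by positivity) (N⁻¹ • x)).congr fun m => ?_
  rw [show x + N • rz m = N • (N⁻¹ • x + rz m) by
    rw [smul_add, smul_smul, mul_inv_cancel₀ hN, one_smul], qf_smul]
  congr 1
  ring

theorem tht (ι : Type) [Fintype ι] [DecidableEq ι] : ∃ R : ℝ, 1 ≤ R ∧ ∀ (B : ℝ) (σ : Matrix ι ι ℂ)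
    (g A : Matrix (ι ⊕ ι) (ι ⊕ ι) ℤ) (M N : ℕ), Lt B σ g A M → 1 ≤ B → B * M * R ≤ (N : ℝ) ^ 2 →
    (∀ b, qf σ (Kz.rq N b) ≤ 1 / 64 → 7 / 8 ≤ Tht σ N b) ∧ 1 ≤ Tht σ N 0 ∧ Tht σ N 0 ≤ 9 / 8 ∧
      ∀ b, 1 / 2 ≤ Tht σ N b → ∃ m, qf σ (Kz.rq N b + (N : ℝ) • rz m) ≤ R := by
  obtain ⟨Z, hZ⟩ := Mo.gauss_bound (ι ⊕ ι) one_pos
  have pi3 := Real.pi_gt_three
  have pi4 := Real.pi_le_four
  obtain ⟨R, hR⟩ : ∃ R, R = 8 * |Z| + 1 := ⟨_, rfl⟩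
  have R1 : 1 ≤ R := by linarith [abs_nonneg Z]
  have hRZ : Real.exp (-(Real.pi * R)) * Z ≤ 1 / 8 := by
    rw [Real.exp_neg, inv_mul_le_iff₀ (Real.exp_pos _)]
    have := Real.add_one_le_exp (Real.pi * R)
    nlinarith [le_abs_self Z]
  refine ⟨R, R1, fun B σ g A M N h hB hN => ?_⟩
  have M1 : (1 : ℝ) ≤ M := by exact_mod_cast h.pos
  have BM : 1 ≤ B * M := by nlinarith
  have N1 : B * M ≤ (N : ℝ) ^ 2 := by nlinarith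
  have N0 : (N : ℝ) ≠ 0 := fun h0 => by
    rw [h0] at N1
    linarith
  have tail : ∀ (x : ι ⊕ ι → ℝ) (f : (ι ⊕ ι → ℤ) → ℝ), (∀ m, f m = 0 ∨
      R ≤ qf σ (x + (N : ℝ) • rz m) ∧
        f m = Real.exp (-(2 * Real.pi) * qf σ (x + (N : ℝ) • rz m))) → ∑' m, f m ≤ 1 / 8 := by
    intro x f hf
    obtain ⟨h1, h2⟩ := hZ ((N : ℝ)⁻¹ • A.map (Int.cast : ℤ → ℝ) *ᵥ x)
    refine le_trans ?_ ((mul_le_mul_of_nonneg_left h2 (Real.exp_pos _).le).trans hRZ)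
    rw [← tsum_mul_left]
    have h3 : ∀ m, f m ≤ Real.exp (-(Real.pi * R)) * Real.exp (-(Real.pi * (1 * ∑ i,
        (((A *ᵥ m) i : ℝ) + ((N : ℝ)⁻¹ • A.map (Int.cast : ℤ → ℝ) *ᵥ x) i) ^ 2))) := fun m => by
      rcases hf m with h0 | ⟨a1, a2⟩
      · rw [h0]
        positivity
      have a3 := h.low ((N : ℝ)⁻¹ • (x + (N : ℝ) • rz m))
      rw [qf_smul, smul_add, smul_smul, inv_mul_cancel₀ N0, one_smul, mulVec_add, ← rz_mulVec,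
        mulVec_smul, add_comm, ← mul_assoc] at a3
      have a4 : B * M * (N : ℝ)⁻¹ ^ 2 ≤ 1 := by
        rwa [inv_pow, mul_inv_le_iff₀ (by positivity), one_mul]
      have a5 := a3.trans (mul_le_of_le_one_left (qf_nonneg h.inH _) a4)
      rw [a2, ← Real.exp_add, one_mul]
      refine Real.exp_le_exp.2 ?_
      simp only [Pi.add_apply, rz] at a5
      nlinarith
    have h4 : ∀ m, 0 ≤ f m := fun m => by
      rcases hf m with h0 | ⟨-, h0⟩ <;> rw [h0]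
      positivity
    exact Summable.tsum_le_tsum_of_inj _ h.inj (fun _ _ => by positivity) h3
      (Summable.of_nonneg_of_le h4 h3 ((h1.comp_injective h.inj).mul_left _)) (h1.mul_left _)
  have sm := summable_tht h.inH N0
  have low : ∀ b, 1 - 8 * qf σ (Kz.rq N b) ≤ Tht σ N b := fun b => by
    refine le_trans ?_ ((sm _).le_tsum 0 fun _ _ => (Real.exp_pos _).le)
    rw [Kz.rz_zero, smul_zero, add_zero]
    have := Real.add_one_le_exp (-(2 * Real.pi) * qf σ (Kz.rq N b))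
    nlinarith [qf_nonneg h.inH (Kz.rq N b)]
  refine ⟨fun b hb => by linarith [low b], by simpa [qf_zero] using low 0, ?_, fun b hb => ?_⟩
  · rw [Tht, (sm _).tsum_eq_add_tsum_ite 0]
    have := tail (Kz.rq N 0) (fun m => if m = 0 then 0 else
      Real.exp (-(2 * Real.pi) * qf σ (Kz.rq N 0 + (N : ℝ) • rz m))) fun m => by
        by_cases h0 : m = 0
        · exact Or.inl (if_pos h0)
        refine Or.inr ⟨?_, if_neg h0⟩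
        rw [Kz.rq_zero, zero_add, qf_smul]
        have a1 := h.one_le h0
        have a2 := qf_nonneg h.inH (rz m)
        nlinarith [mul_le_mul_of_nonneg_right hN a2]
    rw [Kz.rz_zero, smul_zero, add_zero, Kz.rq_zero, qf_zero, mul_zero, Real.exp_zero] at *
    linarith
  · by_contra h0
    push Not at h0
    linarith [show Tht σ N b ≤ 1 / 8 from tail (Kz.rq N b) _ fun m => Or.inr ⟨(h0 m).le, rfl⟩]

theorem corr_u (hσ : InH σ) {N : ℕ} [NeZero N] (hN : Odd N)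
    {u : Matrix (ι ⊕ ι) (ι ⊕ ι) (ZMod (N ^ 2))} {c : ZMod (N ^ 2)} (hu : Kz.SimR u c)
    (hi : Function.Bijective u.mulVec) : ∃ κ : ℝ, 0 < κ ∧
      ∑ p : (ι ⊕ ι → Fin 2) × (ι ⊕ ι → ZMod (N ^ 2)), ‖Xq σ N p.1 (u *ᵥ p.2)‖ ^ 2 = κ * Tht σ N 0 ∧
      ∀ b b', u *ᵥ b = Kz.vZ (N ^ 2) b' →
        (∑ p : (ι ⊕ ι → Fin 2) × (ι ⊕ ι → ZMod (N ^ 2)), ZMod.stdAddChar (-2 * (c * Kz.Ef b p.2)) *
          Xq σ N p.1 (u *ᵥ (p.2 + b)) * conj (Xq σ N p.1 (u *ᵥ p.2))).re = κ * Tht σ N b' := by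
  obtain ⟨κ, hκ, h⟩ := corr hσ hN
  have h1 : ∀ b b', u *ᵥ b = Kz.vZ (N ^ 2) b' →
      (∑ p : (ι ⊕ ι → Fin 2) × (ι ⊕ ι → ZMod (N ^ 2)), ZMod.stdAddChar (-2 * (c * Kz.Ef b p.2)) *
        Xq σ N p.1 (u *ᵥ (p.2 + b)) * conj (Xq σ N p.1 (u *ᵥ p.2))).re = κ * Tht σ N b' := by
    intro b b' hb
    rw [← ofReal_re (κ * _), ← h b', ← hb]
    congr 1
    refine Fintype.sum_bijective _ (Function.bijective_id.prodMap hi) _ _ fun p => ?_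
    rw [Prod.map_fst, Prod.map_snd, hu, mulVec_add, id]
  refine ⟨κ, hκ, ?_, h1⟩
  rw [← h1 0 0 (by funext i; simp [Kz.vZ]), re_sum]
  refine Finset.sum_congr rfl fun p _ => ?_
  rw [Kz.Ef_zero_left, mul_zero, mul_zero, AddChar.map_zero_eq_one, one_mul, add_zero,
    Complex.mul_conj', ← ofReal_pow, ofReal_re]

theorem Xq_pos (hσ : InH σ) {N : ℕ} [NeZero N] (hN : Odd N)
    {u : Matrix (ι ⊕ ι) (ι ⊕ ι) (ZMod (N ^ 2))} {c : ZMod (N ^ 2)} (hu : Kz.SimR u c)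
    (hi : Function.Bijective u.mulVec) :
    0 < ∑ p : (ι ⊕ ι → Fin 2) × (ι ⊕ ι → ZMod (N ^ 2)), ‖Xq σ N p.1 (u *ᵥ p.2)‖ ^ 2 := by
  obtain ⟨κ, hκ, h, -⟩ := corr_u hσ hN hu hi
  rw [h]
  exact mul_pos hκ ((summable_tht hσ (Nat.cast_ne_zero.2 (NeZero.ne N)) _).tsum_pos
    (fun _ => (Real.exp_pos _).le) 0 (Real.exp_pos _))

theorem transfer (ι : Type) [Fintype ι] [DecidableEq ι] : ∃ R : ℝ, 1 ≤ R ∧ ∀ (B : ℝ)
    (σ σ' : Matrix ι ι ℂ) (g A g' A' : Matrix (ι ⊕ ι) (ι ⊕ ι) ℤ) (M M' N : ℕ) [NeZero N]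
    (u u' : Matrix (ι ⊕ ι) (ι ⊕ ι) (ZMod (N ^ 2))) (c : ZMod (N ^ 2)), Lt B σ g A M →
    Lt B σ' g' A' M' → 1 ≤ B → B * M * R ≤ (N : ℝ) ^ 2 → B * M' * R ≤ (N : ℝ) ^ 2 → Odd N →
    Kz.SimR u c → Kz.SimR u' c → Function.Bijective u.mulVec → Function.Bijective u'.mulVec →
    (1 - 1 / 64) *
      ((∑ p : (ι ⊕ ι → Fin 2) × (ι ⊕ ι → ZMod (N ^ 2)), ‖Xq σ N p.1 (u *ᵥ p.2)‖ ^ 2) *
        ∑ p : (ι ⊕ ι → Fin 2) × (ι ⊕ ι → ZMod (N ^ 2)), ‖Xq σ' N p.1 (u' *ᵥ p.2)‖ ^ 2) ≤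
      ‖∑ p : (ι ⊕ ι → Fin 2) × (ι ⊕ ι → ZMod (N ^ 2)),
        Xq σ N p.1 (u *ᵥ p.2) * conj (Xq σ' N p.1 (u' *ᵥ p.2))‖ ^ 2 →
    ∀ b b₁ b₂, u *ᵥ b = Kz.vZ (N ^ 2) b₁ → u' *ᵥ b = Kz.vZ (N ^ 2) b₂ →
      qf σ (Kz.rq N b₁) ≤ 1 / 64 → ∃ m, qf σ' (Kz.rq N b₂ + (N : ℝ) • rz m) ≤ R := by
  obtain ⟨R, R1, hR⟩ := tht ι
  refine ⟨R, R1, fun B σ σ' g A g' A' M M' N _ u u' c h h' hB a1 a2 hN hu hu' hi hi' hc b b₁ b₂
    e1 e2 hb => ?_⟩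
  obtain ⟨t1, -, t2, -⟩ := hR B σ g A M N h hB a1
  obtain ⟨-, t3, -, t4⟩ := hR B σ' g' A' M' N h' hB a2
  obtain ⟨κ, hκ, k1, k2⟩ := corr_u h.inH hN hu hi
  obtain ⟨κ', hκ', k3, k4⟩ := corr_u h'.inH hN hu' hi'
  have := near_sum (w := fun p : (ι ⊕ ι → Fin 2) × (ι ⊕ ι → ZMod (N ^ 2)) =>
      ZMod.stdAddChar (-2 * (c * Kz.Ef b p.2))) (fun p => by simp [ZMod.stdAddChar_apply])
    ((Equiv.refl _).prodCongr (Equiv.addRight b)) (Xq_pos h.inH hN hu hi)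
    (Xq_pos h'.inH hN hu' hi') hc (by
      refine le_trans ?_ (k2 b b₁ e1).ge
      rw [k1]
      nlinarith [t1 b₁ hb])
  have h2 := this.trans (k4 b b₂ e2).le
  rw [k3] at h2
  exact t4 b₂ (le_of_mul_le_mul_left (by nlinarith) hκ')

end MF.An
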